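import Pool.Agent.Lib.MP_e62a5f_gt.Cone

set_option autoImplicit false

open Set Filter Topology MeasureTheory

namespace Pool.Agent.Lib.MP_e62a5f_gt

open scoped RealInnerProductSpace

variable {V : Type*} [NormedAddCommGroup V] [InnerProductSpace ℝ V]

/-- Sums of absolute values of linear functionals, restricted to a finite set. -/
def SumAbs (F : Finset V) : Set (F → ℝ) :=
  {w | ∃ (k : ℕ) (ω : Fin k → V), ∀ x : F, w x = ∑ j, |⟪(x : V), ω j⟫|}

theorem sumAbs_zero (F : Finset V) : (0 : F → ℝ) ∈ SumAbs F :=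
  ⟨0, Fin.elim0, fun x => by simp⟩

theorem sumAbs_add {F : Finset V} {w w' : F → ℝ} (h : w ∈ SumAbs F) (h' : w' ∈ SumAbs F) :
    w + w' ∈ SumAbs F := by
  obtain ⟨k, ω, hω⟩ := h
  obtain ⟨k', ω', hω'⟩ := h'
  refine ⟨k + k', Fin.append ω ω', fun x => ?_⟩
  rw [Fin.sum_univ_add]
  simp [hω x, hω' x]

theorem sumAbs_smul {F : Finset V} {w : F → ℝ} (h : w ∈ SumAbs F) {c : ℝ} (hc : 0 ≤ c) :
    c • w ∈ SumAbs F := by
  obtain ⟨k, ω, hω⟩ := h
  refine ⟨k, fun j => c • ω j, fun x => ?_⟩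
  simp only [Pi.smul_apply, smul_eq_mul, hω x, inner_smul_right, abs_mul, abs_of_nonneg hc,
    Finset.mul_sum]

theorem sumAbs_single (F : Finset V) (ω : V) : (fun x : F => |⟪(x : V), ω⟫|) ∈ SumAbs F :=
  ⟨1, fun _ => ω, fun x => by simp⟩

theorem convex_sumAbs (F : Finset V) : Convex ℝ (SumAbs F) := by
  intro w hw w' hw' a b ha hb _
  exact sumAbs_add (sumAbs_smul hw ha) (sumAbs_smul hw' hb)

variable [FiniteDimensional ℝ V] [MeasurableSpace V] [BorelSpace V]

theorem approx (N : V → ℝ) (hN0 : ∀ x, 0 ≤ N x) (hNs : ∀ (t : ℝ) x, N (t • x) = |t| * N x)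
    (ν : Measure V) [IsFiniteMeasure ν]
    (hν : ∀ x, Real.exp (-N x) = ∫ ξ, Real.cos (2 * Real.pi * ⟪x, ξ⟫) ∂ν)
    (F : Finset V) {η : ℝ} (hη : 0 < η) :
    ∃ (k : ℕ) (ω : Fin k → V), ∀ x ∈ F, |∑ j, |⟪x, ω j⟫| - N x| < η := by
  classical
  have hmem : (fun x : F => N x) ∈ closure (SumAbs F) := by
    by_contra hno
    obtain ⟨f, u, hf, hu⟩ := geometric_hahn_banach_closed_point (convex_sumAbs F).closure
      isClosed_closure hno
    have hu0 : 0 < u := by
      have := hf 0 (subset_closure (sumAbs_zero F))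
      simpa using this
    have hf0 : ∀ w ∈ SumAbs F, f w ≤ 0 := by
      intro w hw
      by_contra hpos
      push Not at hpos
      have h1 := hf _ (subset_closure (sumAbs_smul hw (c := u / f w) (by positivity)))
      rw [map_smul, smul_eq_mul, div_mul_cancel₀ _ hpos.ne'] at h1
      exact lt_irrefl _ h1
    let τ : V → ℝ := fun x => if hx : x ∈ F then f (Pi.single ⟨x, hx⟩ 1) else 0
    have hfτ : ∀ g : V → ℝ, f (fun x : F => g x) = ∑ x ∈ F, τ x * g x := by
      intro g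
      have h1 : (fun x : F => g x) = ∑ x : F, g x • (Pi.single x (1:ℝ) : F → ℝ) := by
        ext y
        simp [Finset.sum_apply, Pi.single_apply]
      rw [h1, map_sum]
      rw [← Finset.sum_attach F]
      refine Finset.sum_congr rfl fun x _ => ?_
      rw [map_smul, smul_eq_mul, mul_comm]
      simp [τ]
    have h1 : ∑ x ∈ F, τ x * N x ≤ 0 := by
      apply cone_ineq N hN0 hNs ν hν F τ
      intro ω
      have := hf0 _ (sumAbs_single F ω)
      rwa [hfτ fun x => |⟪x, ω⟫|] at this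
    rw [hfτ N] at hu
    linarith
  obtain ⟨w, ⟨k, ω, hω⟩, hw⟩ := Metric.mem_closure_iff.1 hmem η hη
  refine ⟨k, ω, fun x hx => ?_⟩
  have h1 := (dist_pi_lt_iff hη).1 hw ⟨x, hx⟩
  rw [Real.dist_eq, hω ⟨x, hx⟩, abs_sub_comm] at h1
  exact h1

end Pool.Agent.Lib.MP_e62a5f_gt
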