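import Pool.Agent.Lib.MP_e62a5f_gt.BochnerPos

set_option autoImplicit false

open Set Filter Topology MeasureTheory

namespace Pool.Agent.Lib.MP_e62a5f_gt

variable {V : Type*} [NormedAddCommGroup V] [InnerProductSpace ℝ V] [FiniteDimensional ℝ V]
  [MeasurableSpace V] [BorelSpace V]

open scoped RealInnerProductSpace FourierTransform

/-- The cosine transform. -/
noncomputable def cosT (φ : V → ℝ) (ξ : V) : ℝ := ∫ u, φ u * Real.cos (2 * Real.pi * ⟪u, ξ⟫)

theorem integrable_mul_cos {φ : V → ℝ} (hφ : PDFun φ) (ξ : V) :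
    Integrable fun u => φ u * Real.cos (2 * Real.pi * ⟪u, ξ⟫) := by
  refine hφ.int.mono ?_ (Eventually.of_forall fun u => ?_)
  · apply Continuous.aestronglyMeasurable
    have := hφ.cont
    fun_prop
  · rw [norm_mul]
    exact mul_le_of_le_one_right (norm_nonneg _) (Real.abs_cos_le_one _)

theorem integrable_mul_sin {φ : V → ℝ} (hφ : PDFun φ) (ξ : V) :
    Integrable fun u => φ u * Real.sin (2 * Real.pi * ⟪u, ξ⟫) := by
  refine hφ.int.mono ?_ (Eventually.of_forall fun u => ?_)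
  · apply Continuous.aestronglyMeasurable
    have := hφ.cont
    fun_prop
  · rw [norm_mul]
    exact mul_le_of_le_one_right (norm_nonneg _) (Real.abs_sin_le_one _)

theorem integral_mul_sin {φ : V → ℝ} (hφ : PDFun φ) (ξ : V) :
    ∫ u, φ u * Real.sin (2 * Real.pi * ⟪u, ξ⟫) = 0 := by
  have h := integral_neg_eq_self (fun u => φ u * Real.sin (2 * Real.pi * ⟪u, ξ⟫)) volume
  have h2 : ∀ u : V, φ (-u) * Real.sin (2 * Real.pi * ⟪-u, ξ⟫) =
      -(φ u * Real.sin (2 * Real.pi * ⟪u, ξ⟫)) := by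
    intro u
    rw [hφ.even, inner_neg_left, mul_neg, Real.sin_neg]
    ring
  simp only [h2, integral_neg] at h
  linarith

theorem fourier_eq_cosT {φ : V → ℝ} (hφ : PDFun φ) (ξ : V) :
    𝓕 (fun x => (φ x : ℂ)) ξ = (cosT φ ξ : ℂ) := by
  rw [Real.fourier_eq']
  have h1 : ∀ v : V, Complex.exp ((↑(-2 * Real.pi * ⟪v, ξ⟫) * Complex.I)) • (φ v : ℂ) =
      ((φ v * Real.cos (2 * Real.pi * ⟪v, ξ⟫) : ℝ) : ℂ) -
        Complex.I * ((φ v * Real.sin (2 * Real.pi * ⟪v, ξ⟫) : ℝ) : ℂ) := by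
    intro v
    rw [Complex.exp_mul_I, ← Complex.ofReal_cos, ← Complex.ofReal_sin]
    have e1 : -2 * Real.pi * ⟪v, ξ⟫ = -(2 * Real.pi * ⟪v, ξ⟫) := by ring
    rw [e1, Real.cos_neg, Real.sin_neg]
    push_cast
    rw [smul_eq_mul]
    ring
  simp only [h1]
  rw [integral_sub, integral_const_mul]
  · rw [integral_complex_ofReal, integral_complex_ofReal, integral_mul_sin hφ]
    simp [cosT]
  · exact (integrable_mul_cos hφ ξ).ofReal
  · exact (integrable_mul_sin hφ ξ).ofReal.const_mul _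

theorem continuous_cosT {φ : V → ℝ} (hφ : PDFun φ) : Continuous (cosT φ) := by
  apply continuous_of_dominated (bound := fun u => |φ u|)
  · intro ξ
    exact (integrable_mul_cos hφ ξ).1
  · intro ξ
    refine Eventually.of_forall fun u => ?_
    rw [norm_mul]
    exact mul_le_of_le_one_right (norm_nonneg _) (Real.abs_cos_le_one _)
  · exact hφ.int.norm
  · refine Eventually.of_forall fun u => ?_
    fun_prop

theorem cosT_nonneg {φ : V → ℝ} (hφ : PDFun φ) (ξ : V) : 0 ≤ cosT φ ξ := hφ.pos ξ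

theorem cosT_le {φ : V → ℝ} (hφ : PDFun φ) (ξ : V) : cosT φ ξ ≤ ∫ u, |φ u| := by
  refine integral_mono (integrable_mul_cos hφ ξ) hφ.int.norm fun u => ?_
  refine (le_abs_self _).trans ?_
  rw [abs_mul]
  exact mul_le_of_le_one_right (abs_nonneg _) (Real.abs_cos_le_one _)

theorem integrable_gauss_cosT {φ : V → ℝ} (hφ : PDFun φ) {t : ℝ} (ht : 0 < t) :
    Integrable fun ξ : V => Real.exp (-t * ‖ξ‖ ^ 2) * cosT φ ξ := by
  refine (((integrable_gauss ht).mul_const (∫ u : V, |φ u|))).mono ?_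
    (Eventually.of_forall fun ξ => ?_)
  · apply Continuous.aestronglyMeasurable
    have := continuous_cosT hφ
    fun_prop
  · rw [norm_mul, norm_mul]
    gcongr
    rw [Real.norm_eq_abs, Real.norm_eq_abs, abs_of_nonneg (cosT_nonneg hφ ξ)]
    exact (cosT_le hφ ξ).trans (le_abs_self _)

theorem tendsto_gauss_cosT {φ : V → ℝ} (hφ : PDFun φ) :
    Tendsto (fun c : ℝ => ∫ ξ : V, Real.exp (-c⁻¹ * ‖ξ‖ ^ 2) * cosT φ ξ) atTop (𝓝 1) := by
  have h1 := Real.tendsto_integral_gaussian_smul' (V := V) (f := fun x => (φ x : ℂ))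
    hφ.int.ofReal (v := 0) (by
      have := hφ.cont
      exact (Complex.continuous_ofReal.comp this).continuousAt)
  have h2 : ∀ᶠ c : ℝ in atTop, ∫ w : V, ((Real.pi * c : ℂ) ^ (Module.finrank ℝ V / 2 : ℂ) *
      Complex.exp (-Real.pi ^ 2 * c * ‖(0:V) - w‖ ^ 2)) • (φ w : ℂ) =
      ((∫ ξ : V, Real.exp (-c⁻¹ * ‖ξ‖ ^ 2) * cosT φ ξ : ℝ) : ℂ) := by
    filter_upwards [Ioi_mem_atTop 0] with c (hc : 0 < c)
    have J : Integrable (fun w : V => Complex.exp (-((c⁻¹ : ℝ) : ℂ) * ‖w‖ ^ 2)) := by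
      have := GaussianFourier.integrable_cexp_neg_mul_sq_norm_add (V := V) (b := ((c⁻¹ : ℝ) : ℂ))
        (by simpa using hc) 0 0
      simpa using this
    have hfi : Integrable (fun x : V => ((φ x : ℝ) : ℂ)) := hφ.int.ofReal
    have h3 := (VectorFourier.integral_fourierIntegral_smul_eq_flip (L := innerₗ V)
      Real.continuous_fourierChar continuous_inner J hfi)
    have h4 : ∀ w : V, VectorFourier.fourierIntegral 𝐞 volume (innerₗ V)
        (fun w : V => Complex.exp (-((c⁻¹ : ℝ) : ℂ) * ‖w‖ ^ 2)) w =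
        (Real.pi * c : ℂ) ^ (Module.finrank ℝ V / 2 : ℂ) *
          Complex.exp (-Real.pi ^ 2 * c * ‖(0:V) - w‖ ^ 2) := by
      intro w
      have := fourier_gaussian_innerProductSpace (V := V) (b := ((c⁻¹ : ℝ) : ℂ))
        (by simpa using hc) w
      refine Eq.trans this ?_
      congr 2
      · simp
      · simp; ring
    simp only [h4] at h3
    refine h3.trans ?_
    rw [← integral_complex_ofReal]
    refine integral_congr_ae (Eventually.of_forall fun ξ => ?_)
    have h5 : VectorFourier.fourierIntegral 𝐞 volume (innerₗ V).flip (fun x : V => (φ x : ℂ)) ξ =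
        (cosT φ ξ : ℂ) := by
      rw [← fourier_eq_cosT hφ ξ]
      have : (innerₗ V).flip = innerₗ V := by
        ext x y
        simp only [LinearMap.flip_apply, innerₗ_apply_apply]
        exact real_inner_comm _ _
      rw [this]
      rfl
    simp only
    rw [h5]
    push_cast
    rw [smul_eq_mul]
  have h6 := h1.congr' h2
  rw [hφ.zero] at h6
  have h7 := (Complex.continuous_re.tendsto _).comp h6
  simpa [Function.comp_def] using h7

theorem integrable_cosT {φ : V → ℝ} (hφ : PDFun φ) : Integrable (cosT φ) := by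
  have hm : Measurable (cosT φ) := (continuous_cosT hφ).measurable
  rw [← lintegral_ofReal_ne_top_iff_integrable hm.aestronglyMeasurable
    (Eventually.of_forall (cosT_nonneg hφ))]
  have h1 : ∀ ξ : V, Tendsto (fun n : ℕ => ENNReal.ofReal (Real.exp (-((n : ℝ))⁻¹ * ‖ξ‖ ^ 2) * cosT φ ξ))
      atTop (𝓝 (ENNReal.ofReal (cosT φ ξ))) := by
    intro ξ
    apply ENNReal.tendsto_ofReal
    have e1 : Tendsto (fun n : ℕ => -((n : ℝ))⁻¹ * ‖ξ‖ ^ 2) atTop (𝓝 (-0 * ‖ξ‖ ^ 2)) :=
      (tendsto_inv_atTop_nhds_zero_nat.neg).mul_const _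
    have e2 := ((Real.continuous_exp.tendsto _).comp e1).mul_const (cosT φ ξ)
    simpa using e2
  have h2 : ∫⁻ ξ : V, ENNReal.ofReal (cosT φ ξ) ≤
      liminf (fun n : ℕ => ∫⁻ ξ : V, ENNReal.ofReal (Real.exp (-((n : ℝ))⁻¹ * ‖ξ‖ ^ 2) * cosT φ ξ)) atTop := by
    have : ∀ ξ : V, ENNReal.ofReal (cosT φ ξ) =
        liminf (fun n : ℕ => ENNReal.ofReal (Real.exp (-((n : ℝ))⁻¹ * ‖ξ‖ ^ 2) * cosT φ ξ)) atTop :=
      fun ξ => (h1 ξ).liminf_eq.symm
    simp only [this]
    apply lintegral_liminf_le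
    intro n
    fun_prop
  have h3 : Tendsto (fun n : ℕ => ∫⁻ ξ : V, ENNReal.ofReal (Real.exp (-((n : ℝ))⁻¹ * ‖ξ‖ ^ 2) * cosT φ ξ))
      atTop (𝓝 (ENNReal.ofReal 1)) := by
    have e1 := ENNReal.tendsto_ofReal ((tendsto_gauss_cosT hφ).comp tendsto_natCast_atTop_atTop)
    refine e1.congr' ?_
    filter_upwards [Ioi_mem_atTop 0] with n (hn : 0 < n)
    simp only [Function.comp_apply]
    rw [ofReal_integral_eq_lintegral_ofReal]
    · exact integrable_gauss_cosT hφ (by positivity)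
    · exact Eventually.of_forall fun ξ => mul_nonneg (Real.exp_pos _).le (cosT_nonneg hφ ξ)
  rw [h3.liminf_eq] at h2
  exact ne_top_of_le_ne_top ENNReal.ofReal_ne_top h2

/-- Bochner's theorem for integrable continuous functions. -/
theorem PDFun.bochner {φ : V → ℝ} (hφ : PDFun φ) :
    ∃ ν : Measure V, IsFiniteMeasure ν ∧
      ∀ x, φ x = ∫ ξ, Real.cos (2 * Real.pi * ⟪x, ξ⟫) ∂ν := by
  have hq := integrable_cosT hφ
  have hm : Measurable (cosT φ) := (continuous_cosT hφ).measurable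
  refine ⟨volume.withDensity fun ξ => ENNReal.ofReal (cosT φ ξ),
    isFiniteMeasure_withDensity_ofReal hq.2, fun x => ?_⟩
  rw [integral_withDensity_eq_integral_toReal_smul (by fun_prop) (by simp)]
  have h1 : 𝓕 (fun x : V => (φ x : ℂ)) = fun ξ => (cosT φ ξ : ℂ) := by
    ext ξ
    exact fourier_eq_cosT hφ ξ
  have hcont : ContinuousAt (fun x : V => (φ x : ℂ)) x :=
    (Complex.continuous_ofReal.comp hφ.cont).continuousAt
  have h2 := MeasureTheory.Integrable.fourierInv_fourier_eq (f := fun x : V => (φ x : ℂ))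
    hφ.int.ofReal (by rw [h1]; exact hq.ofReal) hcont
  rw [h1, Real.fourierInv_eq'] at h2
  have h3 : Integrable fun v : V => Complex.exp ((↑(2 * Real.pi * ⟪v, x⟫) * Complex.I)) •
      ((cosT φ v : ℝ) : ℂ) := by
    refine (hq.ofReal (𝕜 := ℂ)).mono ?_ ?_
    · apply Continuous.aestronglyMeasurable
      have := continuous_cosT hφ
      fun_prop
    · refine Eventually.of_forall fun v => ?_
      rw [norm_smul, Complex.norm_exp_ofReal_mul_I, one_mul]
      exact le_refl _
  have h4 := integral_re h3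
  rw [h2] at h4
  simp only [RCLike.re_eq_complex_re, Complex.ofReal_re] at h4
  rw [← h4]
  refine integral_congr_ae (Eventually.of_forall fun v => ?_)
  simp only
  rw [ENNReal.toReal_ofReal (cosT_nonneg hφ v), Complex.exp_mul_I, ← Complex.ofReal_cos,
    ← Complex.ofReal_sin, real_inner_comm x v]
  simp only [smul_eq_mul, Complex.mul_re, Complex.add_re, Complex.ofReal_re, Complex.I_re,
    mul_zero, Complex.ofReal_im, Complex.I_im, mul_one, sub_self, add_zero, sub_zero]
  ring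

end Pool.Agent.Lib.MP_e62a5f_gt
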