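import Pool.Agent.Lib.MP_e62a5f_gt.PsdIntegral

set_option autoImplicit false

open Set Filter Topology MeasureTheory

namespace Pool.Agent.Lib.MP_e62a5f_gt

variable {V : Type*} [NormedAddCommGroup V] [InnerProductSpace ℝ V] [FiniteDimensional ℝ V]
  [MeasurableSpace V] [BorelSpace V]

open scoped RealInnerProductSpace

/-- Continuous integrable even positive definite functions with value `1` at `0`. -/
structure PDFun (φ : V → ℝ) : Prop where
  cont : Continuous φ
  int : Integrable φ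
  le_one : ∀ x, |φ x| ≤ 1
  zero : φ 0 = 1
  even : ∀ x, φ (-x) = φ x
  psd : ∀ (s : Finset V) (v : V → ℝ), 0 ≤ ∑ i ∈ s, ∑ j ∈ s, v i * v j * φ (i - j)

theorem integrable_gauss {t : ℝ} (ht : 0 < t) : Integrable fun x : V => Real.exp (-t * ‖x‖ ^ 2) := by
  have h := (GaussianFourier.integrable_cexp_neg_mul_sq_norm_add (V := V) (b := (t : ℂ))
    (by simpa using ht) 0 0).norm
  refine h.congr (Eventually.of_forall fun x => ?_)
  simp [Complex.norm_exp]
  norm_cast
  exact Or.inl rfl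

theorem PDFun.pos_gauss {φ : V → ℝ} (hφ : PDFun φ) (ξ : V) {t : ℝ} (ht : 0 < t) :
    0 ≤ ∫ u, φ u * Real.cos (2 * Real.pi * ⟪u, ξ⟫) * Real.exp (-(t / 2) * ‖u‖ ^ 2) := by
  let g : V → ℝ := fun u => φ u * Real.cos (2 * Real.pi * ⟪u, ξ⟫)
  have hgc : Continuous g := by
    have := hφ.cont
    fun_prop
  have hgb : ∀ u, |g u| ≤ |φ u| := by
    intro u
    rw [abs_mul]
    exact mul_le_of_le_one_right (abs_nonneg _) (Real.abs_cos_le_one _)
  have hgi : Integrable g := hφ.int.mono hgc.aestronglyMeasurable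
    (Eventually.of_forall fun u => by simpa using hgb u)
  let γ : V → ℝ := fun x => Real.exp (-t * ‖x‖ ^ 2)
  have hγc : Continuous γ := by fun_prop
  have hγ0 : ∀ x, 0 ≤ γ x := fun x => (Real.exp_pos _).le
  have hγ1 : ∀ x, γ x ≤ 1 := fun x => Real.exp_le_one_iff.2 (by nlinarith [sq_nonneg ‖x‖])
  have hγi : Integrable γ := integrable_gauss ht
  let μ : Measure V := volume.withDensity fun x => ENNReal.ofReal (γ x)
  have hμ : IsFiniteMeasure μ := by
    refine isFiniteMeasure_withDensity_ofReal hγi.2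
  have hint : ∀ f : V → ℝ, ∫ x, f x ∂μ = ∫ x, γ x * f x := by
    intro f
    rw [integral_withDensity_eq_integral_toReal_smul (by fun_prop) (by simp)]
    refine integral_congr_ae (Eventually.of_forall fun x => ?_)
    simp [ENNReal.toReal_ofReal (hγ0 x)]
  have h1 : 0 ≤ ∫ x, ∫ y, g (x - y) ∂μ ∂μ := by
    apply psd_integral μ (fun x y => g (x - y)) (by fun_prop) 1
    · intro x y
      exact (hgb _).trans (hφ.le_one _)
    · intro s v
      have e1 := hφ.psd s fun i => v i * Real.cos (2 * Real.pi * ⟪i, ξ⟫)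
      have e2 := hφ.psd s fun i => v i * Real.sin (2 * Real.pi * ⟪i, ξ⟫)
      have e3 := add_nonneg e1 e2
      rw [← Finset.sum_add_distrib] at e3
      refine e3.trans_eq ?_
      refine Finset.sum_congr rfl fun i _ => ?_
      rw [← Finset.sum_add_distrib]
      refine Finset.sum_congr rfl fun j _ => ?_
      simp only [g]
      rw [inner_sub_left, mul_sub, Real.cos_sub]
      ring
  have h2 : ∫ x, ∫ y, g (x - y) ∂μ ∂μ = ∫ x, ∫ u, γ x * (γ (x - u) * g u) := by
    rw [hint]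
    refine integral_congr_ae (Eventually.of_forall fun x => ?_)
    beta_reduce
    rw [hint, integral_const_mul]
    congr 1
    rw [← integral_sub_left_eq_self (fun u => γ (x - u) * g u) volume x]
    simp
  have h3 : ∫ x, ∫ u, γ x * (γ (x - u) * g u) = ∫ u, ∫ x, γ x * (γ (x - u) * g u) := by
    apply integral_integral_swap
    refine (hγi.mul_prod hgi.norm).mono' ?_ ?_
    · apply Continuous.aestronglyMeasurable
      unfold Function.uncurry
      fun_prop
    · refine Eventually.of_forall fun p => ?_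
      simp only [Function.uncurry, norm_mul, Real.norm_eq_abs]
      rw [abs_of_nonneg (hγ0 _), abs_of_nonneg (hγ0 _)]
      have := hγ1 (p.1 - p.2)
      have h0 := hγ0 (p.1 - p.2)
      have h0' := hγ0 p.1
      have : γ (p.1 - p.2) * |g p.2| ≤ 1 * |g p.2| := by gcongr
      calc γ p.1 * (γ (p.1 - p.2) * |g p.2|) ≤ γ p.1 * (1 * |g p.2|) := by gcongr
        _ = γ p.1 * |g p.2| := by ring
  let C : ℝ := ∫ x : V, Real.exp (-(2 * t) * ‖x‖ ^ 2)
  have hC : 0 < C := by
    have : C = (Real.pi / (2 * t)) ^ (Module.finrank ℝ V / 2 : ℝ) :=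
      GaussianFourier.integral_rexp_neg_mul_sq_norm (by positivity)
    rw [this]
    positivity
  have h4 : ∀ u, ∫ x, γ x * (γ (x - u) * g u) = C * (g u * Real.exp (-(t / 2) * ‖u‖ ^ 2)) := by
    intro u
    have e1 : ∀ x, γ x * (γ (x - u) * g u) =
        (g u * Real.exp (-(t / 2) * ‖u‖ ^ 2)) *
          Real.exp (-(2 * t) * ‖x - (1/2 : ℝ) • u‖ ^ 2) := by
      intro x
      simp only [γ]
      have e2 : ‖x - u‖ ^ 2 = ‖x‖ ^ 2 - 2 * ⟪x, u⟫ + ‖u‖ ^ 2 := norm_sub_sq_real x u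
      have e3 : ‖x - (1/2 : ℝ) • u‖ ^ 2 = ‖x‖ ^ 2 - ⟪x, u⟫ + (1/4) * ‖u‖ ^ 2 := by
        rw [norm_sub_sq_real, inner_smul_right, norm_smul]
        norm_num
        ring
      rw [e2, e3]
      have : Real.exp (-t * ‖x‖ ^ 2) * (Real.exp (-t * (‖x‖ ^ 2 - 2 * ⟪x, u⟫ + ‖u‖ ^ 2)) * g u) =
        g u * (Real.exp (-t * ‖x‖ ^ 2) * Real.exp (-t * (‖x‖ ^ 2 - 2 * ⟪x, u⟫ + ‖u‖ ^ 2))) := by ring
      have e5 : Real.exp (-t * ‖x‖ ^ 2) * Real.exp (-t * (‖x‖ ^ 2 - 2 * ⟪x, u⟫ + ‖u‖ ^ 2)) =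
          Real.exp (-(t / 2) * ‖u‖ ^ 2) *
            Real.exp (-(2 * t) * (‖x‖ ^ 2 - ⟪x, u⟫ + 1 / 4 * ‖u‖ ^ 2)) := by
        rw [← Real.exp_add, ← Real.exp_add]
        congr 1
        ring
      rw [this, e5]
      ring
    simp only [e1]
    rw [integral_const_mul]
    rw [integral_sub_right_eq_self (fun x => Real.exp (-(2 * t) * ‖x‖ ^ 2)) ((1/2 : ℝ) • u)]
    ring
  rw [h2, h3] at h1
  simp only [h4] at h1
  rw [integral_const_mul] at h1
  exact nonneg_of_mul_nonneg_right h1 hC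

/-- The (cosine) Fourier transform of a positive definite function is nonnegative. -/
theorem PDFun.pos {φ : V → ℝ} (hφ : PDFun φ) (ξ : V) :
    0 ≤ ∫ u, φ u * Real.cos (2 * Real.pi * ⟪u, ξ⟫) := by
  have h1 : Tendsto (fun n : ℕ => ∫ u, φ u * Real.cos (2 * Real.pi * ⟪u, ξ⟫) *
      Real.exp (-((1 / ((n : ℝ) + 1)) / 2) * ‖u‖ ^ 2)) atTop
      (𝓝 (∫ u, φ u * Real.cos (2 * Real.pi * ⟪u, ξ⟫))) := by
    apply tendsto_integral_of_dominated_convergence (fun u => |φ u|)
    · intro n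
      apply Continuous.aestronglyMeasurable
      have := hφ.cont
      fun_prop
    · exact hφ.int.norm
    · intro n
      refine Eventually.of_forall fun u => ?_
      rw [norm_mul, norm_mul, Real.norm_eq_abs, Real.norm_eq_abs, Real.norm_eq_abs, Real.abs_exp]
      have e1 : |Real.cos (2 * Real.pi * ⟪u, ξ⟫)| ≤ 1 := Real.abs_cos_le_one _
      have e2 : Real.exp (-((1 / ((n : ℝ) + 1)) / 2) * ‖u‖ ^ 2) ≤ 1 := by
        apply Real.exp_le_one_iff.2
        have : 0 ≤ (1 / ((n : ℝ) + 1)) / 2 * ‖u‖ ^ 2 := by positivity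
        linarith
      calc |φ u| * |Real.cos (2 * Real.pi * ⟪u, ξ⟫)| * Real.exp (-((1 / ((n : ℝ) + 1)) / 2) * ‖u‖ ^ 2)
          ≤ |φ u| * 1 * 1 := by gcongr
        _ = |φ u| := by ring
    · refine Eventually.of_forall fun u => ?_
      have e1 : Tendsto (fun n : ℕ => -((1 / ((n : ℝ) + 1)) / 2) * ‖u‖ ^ 2) atTop (𝓝 (-(0 / 2) * ‖u‖ ^ 2)) :=
        ((tendsto_one_div_add_atTop_nhds_zero_nat.div_const 2).neg).mul_const _
      have e2 := (Real.continuous_exp.tendsto _).comp e1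
      simp only [zero_div, neg_zero, zero_mul, Real.exp_zero] at e2
      have e3 := e2.const_mul (φ u * Real.cos (2 * Real.pi * ⟪u, ξ⟫))
      simpa using e3
  exact ge_of_tendsto' h1 fun n => hφ.pos_gauss ξ (by positivity)

end Pool.Agent.Lib.MP_e62a5f_gt
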