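import Pool.Agent.Lib.MP_e62a5f_gt.Psd

set_option autoImplicit false

open Set Filter Topology MeasureTheory

namespace Pool.Agent.Lib.MP_e62a5f_gt

/-- Split the identity of the line into a part constant near the centres `a i` and a part of small
oscillation. -/
theorem collapse {I : Type*} [Fintype I] (a : I → ℝ) (ρ : ℝ) (hρ : 0 ≤ ρ) :
    ∃ R S : ℝ → ℝ, Monotone R ∧ Monotone S ∧ (∀ t, R t + S t = t) ∧
      (∀ i t, |t - a i| ≤ ρ → R t = R (a i)) ∧
      ∀ s t, |S s - S t| ≤ 2 * ρ * Fintype.card I := by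
  let J : Set ℝ := ⋃ i, Icc (a i - ρ) (a i + ρ)
  have hJm : MeasurableSet J := MeasurableSet.iUnion fun i => measurableSet_Icc
  have hJv : volume J ≤ ENNReal.ofReal (2 * ρ * Fintype.card I) := by
    refine (measure_iUnion_fintype_le _ _).trans ?_
    simp only [Real.volume_Icc]
    have : ∀ i : I, a i + ρ - (a i - ρ) = 2 * ρ := fun i => by ring
    simp only [this, Finset.sum_const, Finset.card_univ, nsmul_eq_mul]
    rw [← ENNReal.ofReal_natCast, ← ENNReal.ofReal_mul (by positivity)]
    apply le_of_eq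
    congr 1
    ring
  have hJfin : volume J ≠ ⊤ := ne_top_of_le_ne_top ENNReal.ofReal_ne_top hJv
  let S : ℝ → ℝ := fun t => volume.real (J ∩ Iic t)
  have hfin : ∀ t, volume (J ∩ Iic t) ≠ ⊤ := fun t =>
    ne_top_of_le_ne_top hJfin (measure_mono inter_subset_left)
  have hSmono : Monotone S := by
    intro s t hst
    exact measureReal_mono (inter_subset_inter_right _ (Iic_subset_Iic.2 hst)) (hfin t)
  have hdiff : ∀ s t, s ≤ t → S t - S s = volume.real (J ∩ Ioc s t) := by
    intro s t hst
    have h1 : J ∩ Iic t = (J ∩ Iic s) ∪ (J ∩ Ioc s t) := by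
      rw [← inter_union_distrib_left, Iic_union_Ioc_eq_Iic hst]
    have h2 : Disjoint (J ∩ Iic s) (J ∩ Ioc s t) := by
      refine Disjoint.mono inter_subset_right inter_subset_right ?_
      exact Set.Iic_disjoint_Ioc le_rfl
    have h3 : volume.real (J ∩ Iic t) = volume.real (J ∩ Iic s) + volume.real (J ∩ Ioc s t) := by
      rw [h1]
      exact measureReal_union h2 (hJm.inter measurableSet_Ioc) (hfin s)
        (ne_top_of_le_ne_top hJfin (measure_mono inter_subset_left))
    show volume.real (J ∩ Iic t) - volume.real (J ∩ Iic s) = _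
    linarith
  have hle : ∀ s t, s ≤ t → S t - S s ≤ t - s := by
    intro s t hst
    rw [hdiff s t hst]
    have : volume.real (J ∩ Ioc s t) ≤ volume.real (Ioc s t) :=
      measureReal_mono inter_subset_right (by simp)
    simpa [hst] using this
  have hosc : ∀ s t, s ≤ t → |S s - S t| ≤ 2 * ρ * Fintype.card I := by
    intro s t hst
    rw [abs_sub_comm, abs_of_nonneg (sub_nonneg.2 (hSmono hst)), hdiff s t hst]
    have h1 : volume.real (J ∩ Ioc s t) ≤ volume.real J :=
      measureReal_mono inter_subset_left hJfin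
    refine h1.trans ?_
    rw [measureReal_def]
    exact ENNReal.toReal_le_of_le_ofReal (by positivity) hJv
  refine ⟨fun t => t - S t, S, ?_, hSmono, fun t => by ring, ?_, ?_⟩
  · intro s t hst
    have := hle s t hst
    show s - S s ≤ t - S t
    linarith
  · have hconst : ∀ i s t, s ≤ t → |s - a i| ≤ ρ → |t - a i| ≤ ρ → S t - S s = t - s := by
      intro i s t hst hs ht
      rw [hdiff s t hst]
      have : J ∩ Ioc s t = Ioc s t := by
        apply inter_eq_self_of_subset_right
        intro r hr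
        refine mem_iUnion.2 ⟨i, ?_⟩
        rw [abs_le] at hs ht
        exact ⟨by linarith [hr.1], by linarith [hr.2]⟩
      rw [this]
      simp [hst]
    intro i t ht
    have ha : |a i - a i| ≤ ρ := by simpa using hρ
    show t - S t = a i - S (a i)
    rcases le_total t (a i) with h | h
    · have := hconst i t (a i) h ht ha
      linarith
    · have := hconst i (a i) t h ha ht
      linarith
  · intro s t
    rcases le_total s t with h | h
    · exact hosc s t h
    · rw [abs_sub_comm]; exact hosc t s h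

theorem abs_exp_sub_exp_le {a b : ℝ} (ha : 0 ≤ a) (hb : 0 ≤ b) :
    |Real.exp (-a) - Real.exp (-b)| ≤ |a - b| := by
  have key : ∀ a b : ℝ, 0 ≤ a → a ≤ b → |Real.exp (-a) - Real.exp (-b)| ≤ |a - b| := by
    intro a b ha hab
    have h1 : Real.exp (-b) ≤ Real.exp (-a) := Real.exp_le_exp.2 (by linarith)
    rw [abs_of_nonneg (by linarith), abs_of_nonpos (by linarith)]
    have h2 : Real.exp (-b) = Real.exp (-a) * Real.exp (-(b - a)) := by
      rw [← Real.exp_add]; congr 1; ring
    have h3 : 1 - (b - a) ≤ Real.exp (-(b - a)) := by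
      have := Real.add_one_le_exp (-(b - a)); linarith
    have h4 : Real.exp (-a) ≤ 1 := Real.exp_le_one_iff.2 (by linarith)
    have h5 : 0 < Real.exp (-a) := Real.exp_pos _
    rw [h2]
    nlinarith
  rcases le_total a b with h | h
  · exact key a b ha h
  · rw [abs_sub_comm, abs_sub_comm a b]; exact key b a hb h

theorem psd_interval' {ι : Type*} [Fintype ι] (a : ι → ℝ) (L : ℝ) (hL : 0 ≤ L)
    (ha : ∀ i j, |a i - a j| ≤ L) : Psd fun i j => L / 2 - |a i - a j| := by
  rcases isEmpty_or_nonempty ι with h | h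
  · exact ⟨fun i => (h.false i).elim, fun v => by simp⟩
  · obtain ⟨i0, hi0⟩ := Finite.exists_min a
    refine psd_interval a (a i0) L hL fun i => ⟨hi0 i, ?_⟩
    have := (abs_le.1 (ha i i0)).2
    linarith

theorem abs_split {R S : ℝ → ℝ} (hR : Monotone R) (hS : Monotone S) (hRS : ∀ t, R t + S t = t)
    (s t : ℝ) : |s - t| = |R s - R t| + |S s - S t| := by
  have key : ∀ s t : ℝ, s ≤ t → |s - t| = |R s - R t| + |S s - S t| := by
    intro s t h
    rw [abs_of_nonpos (by linarith), abs_of_nonpos (by linarith [hR h]),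
      abs_of_nonpos (by linarith [hS h])]
    have := hRS s
    have := hRS t
    linarith
  rcases le_total s t with h | h
  · exact key s t h
  · rw [abs_sub_comm s t, abs_sub_comm (R s), abs_sub_comm (S s)]; exact key t s h

/-- Main inequality for sums of absolute values of functions. -/
theorem main_fin {Y X J : Type*} [Fintype Y] [Fintype X] [DecidableEq X] (s : Finset J)
    (θY : J → Y → ℝ) (θX : J → X → ℝ) (c : Y → X) (ρ : J → ℝ) (hρ : ∀ j, 0 ≤ ρ j)
    (hc : ∀ j y, |θY j y - θX j (c y)| ≤ ρ j) (v : Y → ℝ) (m : X → ℝ)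
    (hm : ∀ x, m x = ∑ y, if c y = x then v y else 0) :
    (∑ x, ∑ x', m x * m x' * Real.exp (-∑ j ∈ s, |θX j x - θX j x'|)) -
      (Fintype.card X * ∑ j ∈ s, ρ j) * (∑ x, |m x|) ^ 2 ≤
    ∑ y, ∑ y', v y * v y' * Real.exp (-∑ j ∈ s, |θY j y - θY j y'|) := by
  have hcol : ∀ j, ∃ RS : (ℝ → ℝ) × (ℝ → ℝ), Monotone RS.1 ∧ Monotone RS.2 ∧
      (∀ t, RS.1 t + RS.2 t = t) ∧ (∀ x t, |t - θX j x| ≤ ρ j → RS.1 t = RS.1 (θX j x)) ∧
      ∀ s t, |RS.2 s - RS.2 t| ≤ 2 * ρ j * Fintype.card X := by
    intro j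
    obtain ⟨R, S, h⟩ := collapse (θX j) (ρ j) (hρ j)
    exact ⟨(R, S), h⟩
  choose RS hR hS hRS hconst hosc using hcol
  let M : ℝ := Fintype.card X * ∑ j ∈ s, ρ j
  have hM0 : 0 ≤ M := mul_nonneg (by positivity) (Finset.sum_nonneg fun j _ => hρ j)
  -- the two kernels on Y
  let DR : Y → Y → ℝ := fun y y' => ∑ j ∈ s, |(RS j).1 (θY j y) - (RS j).1 (θY j y')|
  let DS : Y → Y → ℝ := fun y y' => ∑ j ∈ s, |(RS j).2 (θY j y) - (RS j).2 (θY j y')|
  let DRX : X → X → ℝ := fun y y' => ∑ j ∈ s, |(RS j).1 (θX j y) - (RS j).1 (θX j y')|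
  let DSX : X → X → ℝ := fun y y' => ∑ j ∈ s, |(RS j).2 (θX j y) - (RS j).2 (θX j y')|
  have hsplitY : ∀ y y', ∑ j ∈ s, |θY j y - θY j y'| = DR y y' + DS y y' := by
    intro y y'
    simp only [DR, DS, ← Finset.sum_add_distrib]
    exact Finset.sum_congr rfl fun j _ => abs_split (hR j) (hS j) (hRS j) _ _
  have hsplitX : ∀ y y', ∑ j ∈ s, |θX j y - θX j y'| = DRX y y' + DSX y y' := by
    intro y y'
    simp only [DRX, DSX, ← Finset.sum_add_distrib]
    exact Finset.sum_congr rfl fun j _ => abs_split (hR j) (hS j) (hRS j) _ _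
  have hDRc : ∀ y y', DR y y' = DRX (c y) (c y') := by
    intro y y'
    refine Finset.sum_congr rfl fun j _ => ?_
    rw [hconst j (c y) _ (hc j y), hconst j (c y') _ (hc j y')]
  -- positivity of exp(-DR)
  have hPR : Psd fun y y' => Real.exp (-DR y y') := by
    let C : J → ℝ := fun j => ∑ y, ∑ y', |(RS j).1 (θY j y) - (RS j).1 (θY j y')|
    have hC : ∀ j y y', |(RS j).1 (θY j y) - (RS j).1 (θY j y')| ≤ C j := by
      intro j y y'
      refine (Finset.single_le_sum (f := fun y' => |(RS j).1 (θY j y) - (RS j).1 (θY j y')|)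
        (fun _ _ => abs_nonneg _) (Finset.mem_univ y')).trans ?_
      exact Finset.single_le_sum (f := fun y => ∑ y', |(RS j).1 (θY j y) - (RS j).1 (θY j y')|)
        (fun _ _ => Finset.sum_nonneg fun _ _ => abs_nonneg _) (Finset.mem_univ y)
    have hC0 : ∀ j, 0 ≤ C j := fun j =>
      Finset.sum_nonneg fun _ _ => Finset.sum_nonneg fun _ _ => abs_nonneg _
    have h1 : Psd fun y y' => ∑ j ∈ s, (C j / 2 - |(RS j).1 (θY j y) - (RS j).1 (θY j y')|) :=
      Psd.sum s fun j _ => psd_interval' (fun y => (RS j).1 (θY j y)) (C j) (hC0 j) (hC j)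
    have h2 := (h1.exp_sub_one.add Psd.one).smul (Real.exp_pos (-∑ j ∈ s, C j / 2)).le
    convert h2 using 3 with y y'
    rw [sub_add_cancel, ← Real.exp_add, Finset.sum_sub_distrib]
    congr 1
    simp only [DR]
    ring
  have hPS : Psd fun y y' => Real.exp (-DS y y') - Real.exp (-M) := by
    have h1 : Psd fun y y' => ∑ j ∈ s, ((2 * ρ j * Fintype.card X) / 2 -
        |(RS j).2 (θY j y) - (RS j).2 (θY j y')|) :=
      Psd.sum s fun j _ => psd_interval' (fun y => (RS j).2 (θY j y)) _
        (by have := hρ j; positivity) (fun y y' => hosc j _ _)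
    have h2 := h1.exp_sub_one.smul (Real.exp_pos (-M)).le
    convert h2 using 3 with y y'
    rw [mul_sub, ← Real.exp_add, mul_one, Finset.sum_sub_distrib]
    congr 2
    have : ∑ j ∈ s, 2 * ρ j * (Fintype.card X : ℝ) / 2 = M := by
      simp only [M, Finset.mul_sum]
      exact Finset.sum_congr rfl fun j _ => by ring
    rw [this]
    simp only [DS]
    ring
  have hPRS := (hPR.mul hPS).2 v
  -- push forward
  have hpush : ∀ K : X → X → ℝ, ∑ y, ∑ y', v y * v y' * K (c y) (c y') =
      ∑ x, ∑ x', m x * m x' * K x x' := by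
    intro K
    have h1 : ∀ x x', m x * m x' * K x x' =
        ∑ y, ∑ y', (if c y = x then v y else 0) * (if c y' = x' then v y' else 0) * K x x' := by
      intro x x'
      rw [hm x, hm x', Finset.sum_mul_sum, Finset.sum_mul]
      refine Finset.sum_congr rfl fun y _ => by rw [Finset.sum_mul]
    simp only [h1]
    have h2 : ∀ x, ∑ x', ∑ y, ∑ y', (if c y = x then v y else 0) * (if c y' = x' then v y' else 0) * K x x'
        = ∑ y, ∑ y', ∑ x', (if c y = x then v y else 0) * (if c y' = x' then v y' else 0) * K x x' := by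
      intro x
      rw [Finset.sum_comm]
      exact Finset.sum_congr rfl fun y _ => Finset.sum_comm
    simp only [h2]
    symm
    rw [Finset.sum_comm]
    refine Finset.sum_congr rfl fun y _ => ?_
    rw [Finset.sum_comm]
    refine Finset.sum_congr rfl fun y' _ => ?_
    simp
  have hKY : ∑ y, ∑ y', v y * v y' * Real.exp (-∑ j ∈ s, |θY j y - θY j y'|) ≥
      ∑ x, ∑ x', m x * m x' * (Real.exp (-M) * Real.exp (-DRX x x')) := by
    rw [← hpush fun x x' => Real.exp (-M) * Real.exp (-DRX x x')]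
    have h1 : ∑ y, ∑ y', v y * v y' * (Real.exp (-DR y y') * (Real.exp (-DS y y') - Real.exp (-M)))
        = ∑ y, ∑ y', v y * v y' * Real.exp (-∑ j ∈ s, |θY j y - θY j y'|) -
          ∑ y, ∑ y', v y * v y' * (Real.exp (-M) * Real.exp (-DRX (c y) (c y'))) := by
      simp only [← Finset.sum_sub_distrib]
      refine Finset.sum_congr rfl fun y _ => Finset.sum_congr rfl fun y' _ => ?_
      rw [hsplitY, neg_add, Real.exp_add, ← hDRc]
      ring
    have h2 : 0 ≤ ∑ y, ∑ y', v y * v y' * (Real.exp (-DR y y') * (Real.exp (-DS y y') - Real.exp (-M))) :=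
      hPRS
    linarith
  -- comparison on X
  have hcmp : ∑ x, ∑ x', m x * m x' * Real.exp (-∑ j ∈ s, |θX j x - θX j x'|) -
      ∑ x, ∑ x', m x * m x' * (Real.exp (-M) * Real.exp (-DRX x x')) ≤ M * (∑ x, |m x|) ^ 2 := by
    rw [sq, Finset.sum_mul_sum, Finset.mul_sum, ← Finset.sum_sub_distrib]
    refine Finset.sum_le_sum fun x _ => ?_
    rw [Finset.mul_sum, ← Finset.sum_sub_distrib]
    refine Finset.sum_le_sum fun x' _ => ?_
    rw [← mul_sub, hsplitX, ← Real.exp_add]
    have hDRX0 : 0 ≤ DRX x x' := Finset.sum_nonneg fun _ _ => abs_nonneg _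
    have hDSX0 : 0 ≤ DSX x x' := Finset.sum_nonneg fun _ _ => abs_nonneg _
    have hDSXM : DSX x x' ≤ 2 * M := by
      have : DSX x x' ≤ ∑ j ∈ s, 2 * ρ j * Fintype.card X :=
        Finset.sum_le_sum fun j _ => hosc j _ _
      refine this.trans_eq ?_
      simp only [M, Finset.mul_sum]
      exact Finset.sum_congr rfl fun j _ => by ring
    have h1 : |Real.exp (-(DRX x x' + DSX x x')) - Real.exp (-M + -DRX x x')| ≤ M := by
      have h2 : -M + -DRX x x' = -(M + DRX x x') := by ring
      rw [h2]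
      refine (abs_exp_sub_exp_le (by positivity) (by positivity)).trans ?_
      rw [abs_le]
      constructor <;> linarith
    calc m x * m x' * (Real.exp (-(DRX x x' + DSX x x')) - Real.exp (-M + -DRX x x'))
        ≤ |m x * m x' * (Real.exp (-(DRX x x' + DSX x x')) - Real.exp (-M + -DRX x x'))| :=
          le_abs_self _
      _ = |m x| * |m x'| * |Real.exp (-(DRX x x' + DSX x x')) - Real.exp (-M + -DRX x x')| := by
          rw [abs_mul, abs_mul]
      _ ≤ |m x| * |m x'| * M := by gcongr
      _ = M * (|m x| * |m x'|) := by ring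
  have hMdef : (Fintype.card X : ℝ) * ∑ j ∈ s, ρ j = M := rfl
  rw [hMdef]
  linarith

end Pool.Agent.Lib.MP_e62a5f_gt
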