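import Pool.Agent.Lib.MP_e62a5f_gt.Moments

set_option autoImplicit false

open Set Filter Topology MeasureTheory

namespace Pool.Agent.Lib.MP_e62a5f_gt

open scoped RealInnerProductSpace

theorem rpow_add_le' {a b p : ℝ} (ha : 0 ≤ a) (hb : 0 ≤ b) (hp0 : 0 ≤ p) (hp1 : p ≤ 1) :
    (a + b) ^ p ≤ a ^ p + b ^ p := by
  have := NNReal.rpow_add_le_add_rpow ⟨a, ha⟩ ⟨b, hb⟩ hp0 hp1
  exact_mod_cast this

theorem rpow_sum_le' {ι : Type*} (s : Finset ι) (a : ι → ℝ) (ha : ∀ i ∈ s, 0 ≤ a i) {p : ℝ}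
    (hp0 : 0 < p) (hp1 : p ≤ 1) : (∑ i ∈ s, a i) ^ p ≤ ∑ i ∈ s, (a i) ^ p := by
  classical
  induction s using Finset.induction_on with
  | empty => simp [Real.zero_rpow hp0.ne']
  | insert i s hi ih =>
    rw [Finset.sum_insert hi, Finset.sum_insert hi]
    have h1 : ∀ j ∈ s, 0 ≤ a j := fun j hj => ha j (Finset.mem_insert_of_mem hj)
    refine (rpow_add_le' (ha i (Finset.mem_insert_self _ _)) (Finset.sum_nonneg h1) hp0.le hp1).trans ?_
    have := ih h1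
    linarith

theorem abs_rpow_sub_self_le {a p : ℝ} (ha : 0 ≤ a) (hp0 : 0 < p) (hp1 : p < 1) :
    |a ^ p - a| ≤ (1 - p) * (1 + a ^ 2) := by
  rcases ha.eq_or_lt with rfl | ha
  · rw [Real.zero_rpow hp0.ne']
    simp only [sub_self, abs_zero]
    nlinarith
  have h1 : a ^ p ≤ p * a + (1 - p) := by
    have := Real.geom_mean_le_arith_mean2_weighted (w₁ := p) (w₂ := 1 - p) (p₁ := a) (p₂ := 1)
      hp0.le (by linarith) ha.le zero_le_one (by ring)
    simpa using this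
  -- lower bound
  have h2 : a ^ (1 - p) ≤ (1 - p) * a + p := by
    have := Real.geom_mean_le_arith_mean2_weighted (w₁ := 1 - p) (w₂ := p) (p₁ := a) (p₂ := 1)
      (by linarith) hp0.le ha.le zero_le_one (by ring)
    simpa using this
  have h3 : a = a ^ p * a ^ (1 - p) := by
    rw [← Real.rpow_add ha]
    simp
  have h4 : 0 < a ^ p := Real.rpow_pos_of_pos ha p
  have h5 : a - a ^ p ≤ a ^ p * ((1 - p) * (a - 1)) := by
    have : a ^ p * a ^ (1 - p) ≤ a ^ p * ((1 - p) * a + p) :=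
      mul_le_mul_of_nonneg_left h2 h4.le
    nlinarith
  rw [abs_le]
  constructor
  · rcases le_total a 1 with h | h
    · have : a ^ p * ((1 - p) * (a - 1)) ≤ 0 := by
        apply mul_nonpos_of_nonneg_of_nonpos h4.le
        nlinarith
      nlinarith [sq_nonneg a]
    · have h6 : a ^ p ≤ a := by nlinarith
      have h7 : a ^ p * ((1 - p) * (a - 1)) ≤ a * ((1 - p) * (a - 1)) := by
        apply mul_le_mul_of_nonneg_right h6
        nlinarith
      nlinarith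
  · nlinarith [sq_nonneg a]

variable {V : Type*} [NormedAddCommGroup V] [InnerProductSpace ℝ V] [FiniteDimensional ℝ V]
  [MeasurableSpace V] [BorelSpace V]

theorem norm_le_sum_basis {ι : Type*} [Fintype ι] (b : OrthonormalBasis ι ℝ V) (η : V) :
    ‖η‖ ≤ ∑ j, |⟪b j, η⟫| := by
  conv_lhs => rw [← b.sum_repr' η]
  refine (norm_sum_le _ _).trans ?_
  refine Finset.sum_le_sum fun j _ => ?_
  rw [norm_smul, b.norm_eq_one, mul_one, Real.norm_eq_abs]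

/-- Pointwise estimate. -/
theorem pointwise_bound (F : Finset V) (τ : V → ℝ)
    (hτ : ∀ ω : V, ∑ x ∈ F, τ x * |⟪x, ω⟫| ≤ 0) {p : ℝ} (hp0 : 0 < p) (hp1 : p < 1)
    {ι : Type*} [Fintype ι] (b : OrthonormalBasis ι ℝ V) (η : V) :
    ∑ x ∈ F, τ x * |⟪x, η⟫| ^ p ≤
      ((1 - p) * ∑ x ∈ F, |τ x| * (1 + ‖x‖ ^ 2)) * ∑ j, |⟪b j, η⟫| ^ p := by
  have hS0 : 0 ≤ (1 - p) * ∑ x ∈ F, |τ x| * (1 + ‖x‖ ^ 2) :=
    mul_nonneg (by linarith) (Finset.sum_nonneg fun x _ => by positivity)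
  rcases eq_or_ne η 0 with rfl | hη
  · simp [Real.zero_rpow hp0.ne']
  · have hr : 0 < ‖η‖ := norm_pos_iff.2 hη
    let ω : V := ‖η‖⁻¹ • η
    have hω : ‖ω‖ = 1 := by
      rw [norm_smul, norm_inv, norm_norm, inv_mul_cancel₀ hr.ne']
    have hηω : ∀ x : V, |⟪x, η⟫| = ‖η‖ * |⟪x, ω⟫| := by
      intro x
      simp only [ω]
      rw [inner_smul_right, abs_mul, abs_of_pos (inv_pos.2 hr), ← mul_assoc,
        mul_inv_cancel₀ hr.ne', one_mul]
    have h1 : ∑ x ∈ F, τ x * |⟪x, ω⟫| ^ p ≤ (1 - p) * ∑ x ∈ F, |τ x| * (1 + ‖x‖ ^ 2) := by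
      have h2 : ∀ x ∈ F, τ x * |⟪x, ω⟫| ^ p ≤ τ x * |⟪x, ω⟫| + (1 - p) * (|τ x| * (1 + ‖x‖ ^ 2)) := by
        intro x _
        have h3 := abs_rpow_sub_self_le (abs_nonneg ⟪x, ω⟫) hp0 hp1
        have h4 : |⟪x, ω⟫| ^ 2 ≤ ‖x‖ ^ 2 := by
          have := abs_real_inner_le_norm x ω
          rw [hω, mul_one] at this
          gcongr
        have h5 : τ x * (|⟪x, ω⟫| ^ p - |⟪x, ω⟫|) ≤ |τ x| * ((1 - p) * (1 + ‖x‖ ^ 2)) := by
          refine (le_abs_self _).trans ?_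
          rw [abs_mul]
          apply mul_le_mul_of_nonneg_left _ (abs_nonneg _)
          refine h3.trans ?_
          apply mul_le_mul_of_nonneg_left _ (by linarith)
          linarith
        nlinarith
      refine (Finset.sum_le_sum h2).trans ?_
      rw [Finset.sum_add_distrib, ← Finset.mul_sum]
      have := hτ ω
      linarith
    calc ∑ x ∈ F, τ x * |⟪x, η⟫| ^ p = ‖η‖ ^ p * ∑ x ∈ F, τ x * |⟪x, ω⟫| ^ p := by
          rw [Finset.mul_sum]
          refine Finset.sum_congr rfl fun x _ => ?_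
          rw [hηω x, Real.mul_rpow hr.le (abs_nonneg _)]
          ring
      _ ≤ ‖η‖ ^ p * ((1 - p) * ∑ x ∈ F, |τ x| * (1 + ‖x‖ ^ 2)) :=
          mul_le_mul_of_nonneg_left h1 (Real.rpow_nonneg hr.le _)
      _ = ((1 - p) * ∑ x ∈ F, |τ x| * (1 + ‖x‖ ^ 2)) * ‖η‖ ^ p := by ring
      _ ≤ ((1 - p) * ∑ x ∈ F, |τ x| * (1 + ‖x‖ ^ 2)) * ∑ j, |⟪b j, η⟫| ^ p := by
          apply mul_le_mul_of_nonneg_left _ hS0
          refine (Real.rpow_le_rpow hr.le (norm_le_sum_basis b η) hp0.le).trans ?_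
          exact rpow_sum_le' _ _ (fun _ _ => abs_nonneg _) hp0 hp1.le

theorem cone_ineq (N : V → ℝ) (hN0 : ∀ x, 0 ≤ N x) (hNs : ∀ (t : ℝ) x, N (t • x) = |t| * N x)
    (ν : Measure V) [IsFiniteMeasure ν]
    (hν : ∀ x, Real.exp (-N x) = ∫ ξ, Real.cos (2 * Real.pi * ⟪x, ξ⟫) ∂ν)
    (F : Finset V) (τ : V → ℝ) (hτ : ∀ ω : V, ∑ x ∈ F, τ x * |⟪x, ω⟫| ≤ 0) :
    ∑ x ∈ F, τ x * N x ≤ 0 := by
  let b := stdOrthonormalBasis ℝ V
  have hmass : ν.real univ = 1 := by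
    have h := hν 0
    have h0 : N 0 = 0 := by simpa using hNs 0 0
    rw [h0] at h
    simpa using h.symm
  have hmom : ∀ (x : V) {p : ℝ}, 0 < p → p < 1 →
      Integrable (fun ξ : V => |⟪x, (2 * Real.pi) • ξ⟫| ^ p) ν ∧
        Kc p * ∫ ξ : V, |⟪x, (2 * Real.pi) • ξ⟫| ^ p ∂ν = Lc p * N x ^ p := by
    intro x p hp0 hp1
    apply moment ν (fun ξ => ⟪x, (2 * Real.pi) • ξ⟫) (by fun_prop) (N x) (hN0 x) hmass _ hp0 hp1
    intro t ht
    have h := hν (t • x)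
    rw [hNs, abs_of_pos ht] at h
    rw [mul_comm (N x) t, h]
    refine integral_congr_ae (Eventually.of_forall fun ξ => ?_)
    simp only
    congr 1
    rw [inner_smul_left, inner_smul_right]
    simp
    ring
  -- inequality for each p
  have key : ∀ {p : ℝ}, 0 < p → p < 1 → ∑ x ∈ F, τ x * N x ≤
      (1 - p) * ((∑ x ∈ F, |τ x| * (1 + ‖x‖ ^ 2)) * (∑ j, (2 + N (b j) ^ 2 + N (b j))) +
        ∑ x ∈ F, |τ x| * (1 + N x ^ 2)) := by
    intro p hp0 hp1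
    have hK := Kc_pos hp0 hp1
    have hL := Lc_pos hp0 hp1
    have h1 : ∫ ξ : V, ∑ x ∈ F, τ x * |⟪x, (2 * Real.pi) • ξ⟫| ^ p ∂ν ≤
        ∫ ξ : V, ((1 - p) * ∑ x ∈ F, |τ x| * (1 + ‖x‖ ^ 2)) *
          ∑ j, |⟪b j, (2 * Real.pi) • ξ⟫| ^ p ∂ν := by
      apply integral_mono
      · exact integrable_finsetSum _ fun x _ => (hmom x hp0 hp1).1.const_mul _
      · exact (integrable_finsetSum _ fun j _ => (hmom (b j) hp0 hp1).1).const_mul _
      · intro ξ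
        exact pointwise_bound F τ hτ hp0 hp1 b _
    rw [integral_finsetSum _ fun x _ => (hmom x hp0 hp1).1.const_mul _, integral_const_mul,
      integral_finsetSum _ fun j _ => (hmom (b j) hp0 hp1).1] at h1
    simp only [integral_const_mul] at h1
    have h2 := mul_le_mul_of_nonneg_left h1 hK.le
    rw [Finset.mul_sum] at h2
    have h3 : ∀ x ∈ F, Kc p * (τ x * ∫ ξ : V, |⟪x, (2 * Real.pi) • ξ⟫| ^ p ∂ν) =
        Lc p * (τ x * N x ^ p) := by
      intro x _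
      have := (hmom x hp0 hp1).2
      calc _ = τ x * (Kc p * ∫ ξ : V, |⟪x, (2 * Real.pi) • ξ⟫| ^ p ∂ν) := by ring
        _ = _ := by rw [this]; ring
    rw [Finset.sum_congr rfl h3, ← Finset.mul_sum] at h2
    have h4 : Kc p * (((1 - p) * ∑ x ∈ F, |τ x| * (1 + ‖x‖ ^ 2)) *
        ∑ j, ∫ ξ : V, |⟪b j, (2 * Real.pi) • ξ⟫| ^ p ∂ν) =
        Lc p * (((1 - p) * ∑ x ∈ F, |τ x| * (1 + ‖x‖ ^ 2)) * ∑ j, N (b j) ^ p) := by
      have : Kc p * ∑ j, ∫ ξ : V, |⟪b j, (2 * Real.pi) • ξ⟫| ^ p ∂ν = Lc p * ∑ j, N (b j) ^ p := by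
        rw [Finset.mul_sum, Finset.mul_sum]
        exact Finset.sum_congr rfl fun j _ => (hmom (b j) hp0 hp1).2
      calc _ = ((1 - p) * ∑ x ∈ F, |τ x| * (1 + ‖x‖ ^ 2)) *
            (Kc p * ∑ j, ∫ ξ : V, |⟪b j, (2 * Real.pi) • ξ⟫| ^ p ∂ν) := by ring
        _ = _ := by rw [this]; ring
    rw [h4] at h2
    have h5 : ∑ x ∈ F, τ x * N x ^ p ≤
        ((1 - p) * ∑ x ∈ F, |τ x| * (1 + ‖x‖ ^ 2)) * ∑ j, N (b j) ^ p :=
      le_of_mul_le_mul_left h2 hL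
    have h6 : ∑ x ∈ F, τ x * N x ≤ ∑ x ∈ F, τ x * N x ^ p +
        (1 - p) * ∑ x ∈ F, |τ x| * (1 + N x ^ 2) := by
      rw [Finset.mul_sum, ← Finset.sum_add_distrib]
      refine Finset.sum_le_sum fun x _ => ?_
      have h7 := abs_rpow_sub_self_le (hN0 x) hp0 hp1
      have h8 : τ x * (N x - N x ^ p) ≤ |τ x| * ((1 - p) * (1 + N x ^ 2)) := by
        refine (le_abs_self _).trans ?_
        rw [abs_mul, abs_sub_comm]
        exact mul_le_mul_of_nonneg_left h7 (abs_nonneg _)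
      nlinarith
    have h9 : ∑ j, N (b j) ^ p ≤ ∑ j, (2 + N (b j) ^ 2 + N (b j)) := by
      refine Finset.sum_le_sum fun j _ => ?_
      have h7 := (abs_le.1 (abs_rpow_sub_self_le (hN0 (b j)) hp0 hp1)).2
      nlinarith [sq_nonneg (N (b j)), hN0 (b j)]
    have h10 : ((1 - p) * ∑ x ∈ F, |τ x| * (1 + ‖x‖ ^ 2)) * ∑ j, N (b j) ^ p ≤
        ((1 - p) * ∑ x ∈ F, |τ x| * (1 + ‖x‖ ^ 2)) * ∑ j, (2 + N (b j) ^ 2 + N (b j)) := by
      apply mul_le_mul_of_nonneg_left h9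
      exact mul_nonneg (by linarith) (Finset.sum_nonneg fun x _ => by positivity)
    calc _ ≤ _ := h6
      _ ≤ ((1 - p) * ∑ x ∈ F, |τ x| * (1 + ‖x‖ ^ 2)) * ∑ j, (2 + N (b j) ^ 2 + N (b j)) +
        (1 - p) * ∑ x ∈ F, |τ x| * (1 + N x ^ 2) := by linarith
      _ = _ := by ring
  -- let p → 1
  by_contra hpos
  push Not at hpos
  set A := ∑ x ∈ F, τ x * N x with hA
  set B := (∑ x ∈ F, |τ x| * (1 + ‖x‖ ^ 2)) * (∑ j, (2 + N (b j) ^ 2 + N (b j))) +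
        ∑ x ∈ F, |τ x| * (1 + N x ^ 2) with hB
  have hB0 : 0 ≤ B := by
    apply add_nonneg
    · apply mul_nonneg (Finset.sum_nonneg fun x _ => by positivity)
      exact Finset.sum_nonneg fun j _ => by have := hN0 (b j); positivity
    · exact Finset.sum_nonneg fun x _ => by positivity
  have h1 := key (p := 1 - min (1/2) (A / (2 * (B + 1))))
    (by have := min_le_left (1/2 : ℝ) (A / (2 * (B + 1))); linarith)
    (by
      have : 0 < min (1/2 : ℝ) (A / (2 * (B + 1))) := lt_min (by norm_num) (by positivity)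
      linarith)
  have h2 : min (1/2 : ℝ) (A / (2 * (B + 1))) ≤ A / (2 * (B + 1)) := min_le_right _ _
  have h3 : (1 - (1 - min (1/2 : ℝ) (A / (2 * (B + 1))))) * B ≤ A / (2 * (B + 1)) * B := by
    apply mul_le_mul_of_nonneg_right _ hB0
    linarith
  have h4 : A / (2 * (B + 1)) * B ≤ A / 2 := by
    rw [div_mul_eq_mul_div, div_le_div_iff₀ (by positivity) (by norm_num)]
    nlinarith
  linarith

end Pool.Agent.Lib.MP_e62a5f_gt
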