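import Mathlib

set_option autoImplicit false

namespace Pool.Agent.Lib.MP_e62a5f_gt

variable {ι : Type*} [Fintype ι] [DecidableEq ι]

/-- The quadratic form of a matrix. -/
def Q (Z : Matrix ι ι ℝ) (m : ι → ℝ) : ℝ := ∑ i, ∑ j, m i * m j * Z i j

/-- The bilinear form of a matrix. -/
def Bf (Z : Matrix ι ι ℝ) (m a : ι → ℝ) : ℝ := ∑ i, ∑ j, m i * a j * Z i j

omit [DecidableEq ι] in
theorem Q_nonneg {Z : Matrix ι ι ℝ} (hZ : Z.PosDef) (m : ι → ℝ) : 0 ≤ Q Z m := by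
  have h := (Matrix.posSemidef_iff_dotProduct_mulVec.1 hZ.posSemidef).2 m
  simp only [dotProduct, Matrix.mulVec, star_trivial, Pi.star_apply] at h
  refine h.trans_eq ?_
  refine Finset.sum_congr rfl fun i _ => ?_
  rw [Finset.mul_sum]
  exact Finset.sum_congr rfl fun j _ => by ring

omit [DecidableEq ι] in
theorem symm {Z : Matrix ι ι ℝ} (hZ : Z.PosDef) (i j : ι) : Z i j = Z j i := by
  simpa using hZ.isHermitian.apply j i

omit [DecidableEq ι] in
theorem Q_expand {Z : Matrix ι ι ℝ} (hZ : Z.PosDef) (m a : ι → ℝ) (t : ℝ) :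
    Q Z (fun i => m i + t * a i) = Q Z m + 2 * t * Bf Z m a + t * t * Q Z a := by
  have h1 : Bf Z m a = ∑ i, ∑ j, a i * m j * Z i j := by
    unfold Bf
    rw [Finset.sum_comm]
    refine Finset.sum_congr rfl fun i _ => Finset.sum_congr rfl fun j _ => ?_
    rw [symm hZ j i]
    ring
  have h2 : 2 * t * Bf Z m a = t * Bf Z m a + t * Bf Z m a := by ring
  rw [h2]
  nth_rewrite 2 [h1]
  unfold Q Bf
  simp only [Finset.mul_sum, ← Finset.sum_add_distrib]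
  refine Finset.sum_congr rfl fun i _ => Finset.sum_congr rfl fun j _ => ?_
  ring

omit [DecidableEq ι] in
/-- Cauchy-Schwarz. -/
theorem cs {Z : Matrix ι ι ℝ} (hZ : Z.PosDef) (m a : ι → ℝ) :
    Bf Z m a ^ 2 ≤ Q Z m * Q Z a := by
  have h : ∀ t : ℝ, 0 ≤ Q Z a * (t * t) + (2 * Bf Z m a) * t + Q Z m := by
    intro t
    have := Q_nonneg hZ (fun i => m i + t * a i)
    rw [Q_expand hZ] at this
    linarith
  have := discrim_le_zero h
  rw [discrim] at this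
  nlinarith

theorem inv_mul_apply {Z : Matrix ι ι ℝ} (hZ : Z.PosDef) (i j : ι) :
    ∑ k, Z i k * Z⁻¹ k j = if i = j then 1 else 0 := by
  have h : Z * Z⁻¹ = 1 := Matrix.mul_nonsing_inv _ (by
    rw [isUnit_iff_ne_zero]
    exact hZ.det_pos.ne')
  have := congrFun (congrFun h i) j
  rw [Matrix.mul_apply, Matrix.one_apply] at this
  exact this

/-- The weighting. -/
noncomputable def wt (Z : Matrix ι ι ℝ) (i : ι) : ℝ := ∑ j, Z⁻¹ i j

theorem Z_wt {Z : Matrix ι ι ℝ} (hZ : Z.PosDef) (i : ι) : ∑ k, Z i k * wt Z k = 1 := by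
  unfold wt
  simp only [Finset.mul_sum]
  rw [Finset.sum_comm]
  simp only [inv_mul_apply hZ]
  simp

theorem Bf_wt {Z : Matrix ι ι ℝ} (hZ : Z.PosDef) (m : ι → ℝ) : Bf Z m (wt Z) = ∑ i, m i := by
  unfold Bf
  refine Finset.sum_congr rfl fun i _ => ?_
  have : ∑ j, m i * wt Z j * Z i j = m i * ∑ k, Z i k * wt Z k := by
    rw [Finset.mul_sum]
    exact Finset.sum_congr rfl fun j _ => by ring
  rw [this, Z_wt hZ, mul_one]

theorem Q_wt {Z : Matrix ι ι ℝ} (hZ : Z.PosDef) : Q Z (wt Z) = ∑ i, wt Z i := by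
  have h : Q Z (wt Z) = Bf Z (wt Z) (wt Z) := rfl
  rw [h, Bf_wt hZ]

theorem cs_wt {Z : Matrix ι ι ℝ} (hZ : Z.PosDef) (m : ι → ℝ) :
    (∑ i, m i) ^ 2 ≤ Q Z m * ∑ i, wt Z i := by
  have := cs hZ m (wt Z)
  rwa [Bf_wt hZ, Q_wt hZ] at this

theorem mag_pos {Z : Matrix ι ι ℝ} [Nonempty ι] (hZ : Z.PosDef) : 0 < ∑ i, wt Z i := by
  have h0 : 0 ≤ ∑ i, wt Z i := by
    rw [← Q_wt hZ]
    exact Q_nonneg hZ _
  rcases h0.eq_or_lt with h | h
  · exfalso
    obtain ⟨i0⟩ := ‹Nonempty ι›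
    have := cs_wt hZ (fun i => if i = i0 then 1 else 0)
    rw [← h] at this
    simp at this
    linarith
  · exact h

theorem exists_kappa {Z : Matrix ι ι ℝ} (hZ : Z.PosDef) :
    ∃ κ : ℝ, 0 ≤ κ ∧ ∀ m : ι → ℝ, (∑ i, |m i|) ^ 2 ≤ κ * Q Z m := by
  refine ⟨Fintype.card ι * ∑ i, Q Z (fun k => Z⁻¹ k i),
    mul_nonneg (by positivity) (Finset.sum_nonneg fun i _ => Q_nonneg hZ _), fun m => ?_⟩
  have h1 : ∀ i, (m i) ^ 2 ≤ Q Z m * Q Z (fun k => Z⁻¹ k i) := by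
    intro i
    have h2 := cs hZ m (fun k => Z⁻¹ k i)
    have h3 : Bf Z m (fun k => Z⁻¹ k i) = m i := by
      unfold Bf
      have : ∀ i', ∑ j, m i' * Z⁻¹ j i * Z i' j = m i' * (if i' = i then 1 else 0) := by
        intro i'
        rw [← inv_mul_apply hZ, Finset.mul_sum]
        exact Finset.sum_congr rfl fun j _ => by ring
      simp only [this]
      simp
    rwa [h3] at h2
  have h4 := sq_sum_le_card_mul_sum_sq (s := (Finset.univ : Finset ι)) (f := fun i => |m i|)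
  simp only [sq_abs, Finset.card_univ] at h4
  refine h4.trans ?_
  have h5 : ∑ i, m i ^ 2 ≤ Q Z m * ∑ i, Q Z (fun k => Z⁻¹ k i) := by
    rw [Finset.mul_sum]
    exact Finset.sum_le_sum fun i _ => h1 i
  calc (Fintype.card ι : ℝ) * ∑ i, m i ^ 2
      ≤ Fintype.card ι * (Q Z m * ∑ i, Q Z (fun k => Z⁻¹ k i)) := by gcongr
    _ = _ := by ring

end Pool.Agent.Lib.MP_e62a5f_gt
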