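import Pool.Agent.Lib.MP_e62a5f_gt.MainIneq
import Pool.Agent.Lib.MP_e62a5f_gt.LinAlg

set_option autoImplicit false

open Set Filter Topology

namespace Pool.Agent.Lib.MP_e62a5f_gt

variable {U : Type} [NormedAddCommGroup U]

/-- The similarity matrix of a finite subset. -/
noncomputable def Zm (X : Finset U) : Matrix X X ℝ :=
  Matrix.of fun x y => Real.exp (-‖(x : U) - (y : U)‖)

theorem pdnorm_of (h : ∀ X : Finset U, (Zm X).PosDef) : PDNorm U := by
  intro s v
  have h1 := Q_nonneg (h s) (fun x => v x)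
  unfold Q Zm at h1
  simp only [Matrix.of_apply] at h1
  refine h1.trans_eq ?_
  rw [← Finset.sum_coe_sort s]
  refine Finset.sum_congr rfl fun i _ => ?_
  rw [← Finset.sum_coe_sort s]

/-- Pushforward of a weight along a map. -/
theorem push_sum {A B : Type} [Fintype A] [Fintype B] [DecidableEq B] (f : A → B) (w : A → ℝ) :
    ∑ b, (∑ a, if f a = b then w a else 0) = ∑ a, w a := by
  rw [Finset.sum_comm]
  refine Finset.sum_congr rfl fun a _ => ?_
  simp

theorem push_quad {A B : Type} [Fintype A] [Fintype B] [DecidableEq B] (f : A → B) (w : A → ℝ)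
    (K : B → B → ℝ) :
    ∑ b, ∑ b', (∑ a, if f a = b then w a else 0) * (∑ a, if f a = b' then w a else 0) * K b b' =
      ∑ a, ∑ a', w a * w a' * K (f a) (f a') := by
  have h1 : ∀ g : B → ℝ, ∑ b, (∑ a, if f a = b then w a else 0) * g b = ∑ a, w a * g (f a) := by
    intro g
    simp only [Finset.sum_mul]
    rw [Finset.sum_comm]
    refine Finset.sum_congr rfl fun a _ => ?_
    simp
  have h2 : ∀ b, ∑ b', (∑ a, if f a = b then w a else 0) * (∑ a, if f a = b' then w a else 0) * K b b'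
      = (∑ a, if f a = b then w a else 0) * ∑ a', w a' * K b (f a') := by
    intro b
    rw [← h1, Finset.mul_sum]
    exact Finset.sum_congr rfl fun _ _ => by ring
  simp only [h2]
  rw [h1]
  refine Finset.sum_congr rfl fun a _ => ?_
  rw [Finset.mul_sum]
  exact Finset.sum_congr rfl fun _ _ => by ring

theorem exists_close {X Y : Finset U} (hX : X.Nonempty) (hY : Y.Nonempty) {δ : ℝ}
    (h : Metric.hausdorffDist (X : Set U) (Y : Set U) < δ) (x : X) :
    ∃ y : Y, ‖(x : U) - (y : U)‖ ≤ δ := by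
  have hfin : Metric.hausdorffEDist (X : Set U) (Y : Set U) ≠ ⊤ :=
    Metric.hausdorffEDist_ne_top_of_nonempty_of_bounded hX.to_set hY.to_set
      X.finite_toSet.isBounded Y.finite_toSet.isBounded
  obtain ⟨y, hy, hxy⟩ := Metric.exists_dist_lt_of_hausdorffDist_lt (x := (x : U)) x.2 h hfin
  exact ⟨⟨y, hy⟩, by rw [← dist_eq_norm]; exact hxy.le⟩

theorem term_le (a b E F d : ℝ) (h : |E - F| ≤ d) : a * b * E ≤ a * b * F + d * (|a| * |b|) := by
  have h1 : a * b * (E - F) ≤ |a| * |b| * d := by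
    refine (le_abs_self _).trans ?_
    rw [abs_mul, abs_mul]
    exact mul_le_mul_of_nonneg_left h (by positivity)
  linarith

theorem arith_low {S a M : ℝ} (hM : 0 < M) (ha : 0 ≤ a) (h : S ^ 2 ≤ (S + a) * M) :
    S - a ≤ M := by
  by_contra hlt
  push Not at hlt
  have h1 : 0 < S + a := by linarith
  have h2 : 0 < S - a - M := by linarith
  nlinarith [mul_pos h1 h2, mul_self_nonneg a]

theorem lower_bound (h : ∀ X : Finset U, (Zm X).PosDef) [DecidableEq U] (X Y : Finset U)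
    (hX : X.Nonempty) (hY : Y.Nonempty) {δ : ℝ} (hδ0 : 0 ≤ δ)
    (hXY : Metric.hausdorffDist (X : Set U) (Y : Set U) < δ) :
    ∑ i, wt (Zm X) i - 2 * δ * (∑ i, |wt (Zm X) i|) ^ 2 ≤ ∑ i, wt (Zm Y) i := by
  have : Nonempty X := hX.to_subtype
  have : Nonempty Y := hY.to_subtype
  have hS0 : 0 < ∑ i, wt (Zm X) i := mag_pos (h X)
  have hM0 : 0 < ∑ i, wt (Zm Y) i := mag_pos (h Y)
  have hW0 : 0 ≤ ∑ i, |wt (Zm X) i| := Finset.sum_nonneg fun _ _ => abs_nonneg _
  choose f hf using fun x : X => exists_close hX hY hXY x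
  let v : Y → ℝ := fun y => ∑ x, if f x = y then wt (Zm X) x else 0
  have h4 : ∑ y, v y = ∑ i, wt (Zm X) i := push_sum f (wt (Zm X))
  have h5 := cs_wt (h Y) v
  rw [h4] at h5
  have h6 : Q (Zm Y) v = ∑ x, ∑ x', wt (Zm X) x * wt (Zm X) x' *
      Real.exp (-‖(f x : U) - (f x' : U)‖) :=
    push_quad f (wt (Zm X)) (fun y y' => Real.exp (-‖(y : U) - (y' : U)‖))
  have h7 : Q (Zm Y) v ≤ ∑ i, wt (Zm X) i + 2 * δ * (∑ i, |wt (Zm X) i|) ^ 2 := by
    rw [h6, ← Q_wt (h X), sq, Finset.sum_mul_sum]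
    unfold Q
    simp only [Finset.mul_sum, ← Finset.sum_add_distrib]
    refine Finset.sum_le_sum fun x _ => Finset.sum_le_sum fun x' _ => ?_
    have hd : |Real.exp (-‖(f x : U) - (f x' : U)‖) - Real.exp (-‖(x : U) - (x' : U)‖)| ≤ 2 * δ := by
      refine (abs_exp_sub_exp_le (norm_nonneg _) (norm_nonneg _)).trans ?_
      refine (abs_norm_sub_norm_le _ _).trans ?_
      have : (f x : U) - (f x' : U) - ((x : U) - (x' : U)) =
        -((x : U) - f x) + ((x' : U) - f x') := by abel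
      rw [this]
      refine (norm_add_le _ _).trans ?_
      rw [norm_neg]
      linarith [hf x, hf x']
    exact term_le _ _ _ _ _ hd
  exact arith_low hM0 (by positivity) (h5.trans (mul_le_mul_of_nonneg_right h7 hM0.le))

theorem arith_up {S β M q : ℝ} (hβ0 : 0 ≤ β) (hβ : β ≤ 1 / 2) (hM : 0 < M) (hS : 0 < S)
    (h5 : M ^ 2 ≤ q * S) (h8 : (1 - β) * q ≤ M) : M - S ≤ 2 * β * S := by
  have h9 : (1 - β) * M ≤ S := by
    have : (1 - β) * M * M ≤ S * M := by
      calc (1 - β) * M * M = (1 - β) * M ^ 2 := by ring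
        _ ≤ (1 - β) * (q * S) := by
            apply mul_le_mul_of_nonneg_left h5; linarith
        _ = ((1 - β) * q) * S := by ring
        _ ≤ M * S := mul_le_mul_of_nonneg_right h8 hS.le
        _ = S * M := by ring
    exact le_of_mul_le_mul_right this hM
  have h10 := mul_le_mul_of_nonneg_left h9 (by linarith : (0:ℝ) ≤ 1 + 2 * β)
  have h11 := mul_nonneg (mul_nonneg hβ0 (by linarith : (0:ℝ) ≤ 1 - 2 * β)) hM.le
  nlinarith

theorem magnitude_continuous [NormedSpace ℝ U] [FiniteDimensional ℝ U] [DecidableEq U]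
    (h : ∀ X : Finset U, (Zm X).PosDef) (X : Finset U) (hX : X.Nonempty) (ε : ℝ) (hε : 0 < ε) :
    ∃ δ : ℝ, 0 < δ ∧ ∀ Y : Finset U, Y.Nonempty →
      Metric.hausdorffDist (X : Set U) (Y : Set U) < δ →
      |∑ i, wt (Zm Y) i - ∑ i, wt (Zm X) i| < ε := by
  obtain ⟨C, hC0, hC⟩ := main_ineq (pdnorm_of h)
  obtain ⟨κ, hκ0, hκ⟩ := exists_kappa (h X)
  have : Nonempty X := hX.to_subtype
  set S : ℝ := ∑ i, wt (Zm X) i with hS
  have hS0 : 0 < S := mag_pos (h X)
  set W : ℝ := ∑ i, |wt (Zm X) i| with hW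
  have hW0 : 0 ≤ W := Finset.sum_nonneg fun _ _ => abs_nonneg _
  set P : ℝ := C * Fintype.card X * κ with hP
  have hP0 : 0 ≤ P := by positivity
  set R : ℝ := 2 * P * S + 2 * W ^ 2 + 1 with hR
  have hR0 : 0 < R := by positivity
  set δ : ℝ := min (1 / (2 * (P + 1))) (ε / R) with hδ
  have hδ0 : 0 < δ := lt_min (by positivity) (by positivity)
  have hδ1 : 2 * (P + 1) * δ ≤ 1 := by
    have := min_le_left (1 / (2 * (P + 1))) (ε / R)
    rw [← hδ, le_div_iff₀ (by positivity)] at this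
    linarith
  have hδ2 : δ * R ≤ ε := by
    have := min_le_right (1 / (2 * (P + 1))) (ε / R)
    rwa [← hδ, le_div_iff₀ hR0] at this
  refine ⟨δ, hδ0, fun Y hY hXY => ?_⟩
  have : Nonempty Y := hY.to_subtype
  set M : ℝ := ∑ i, wt (Zm Y) i with hM
  have hM0 : 0 < M := mag_pos (h Y)
  -- upper bound
  have hup : M - S ≤ 2 * (P * δ) * S := by
    have hYX : Metric.hausdorffDist (Y : Set U) (X : Set U) < δ := by
      rwa [Metric.hausdorffDist_comm]
    choose c hc using fun y : Y => exists_close hY hX hYX y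
    let m : X → ℝ := fun x => ∑ y, if c y = x then wt (Zm Y) y else 0
    have h1 := hC X Y (fun x => (x : U)) (fun y => (y : U)) c δ hδ0.le hc (wt (Zm Y)) m (fun _ => rfl)
    have h2 : ∑ x, ∑ x', m x * m x' * Real.exp (-‖(x : U) - (x' : U)‖) = Q (Zm X) m := rfl
    have h3 : ∑ x, ∑ x', wt (Zm Y) x * wt (Zm Y) x' * Real.exp (-‖(x : U) - (x' : U)‖) =
        Q (Zm Y) (wt (Zm Y)) := rfl
    rw [h2, h3, Q_wt (h Y), ← hM] at h1
    have h4 : ∑ x, m x = M := push_sum c (wt (Zm Y))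
    have h5 := cs_wt (h X) m
    rw [h4, ← hS] at h5
    have h6 := hκ m
    have h7 : C * Fintype.card X * δ * (∑ x, |m x|) ^ 2 ≤ C * Fintype.card X * δ * (κ * Q (Zm X) m) := by
      gcongr
    have h8 : (1 - P * δ) * Q (Zm X) m ≤ M := by
      have : C * Fintype.card X * δ * (κ * Q (Zm X) m) = P * δ * Q (Zm X) m := by
        rw [hP]; ring
      linarith
    exact arith_up (by positivity) (by nlinarith) hM0 hS0 h5 h8
  have hlow : S - 2 * δ * W ^ 2 ≤ M := lower_bound h X Y hX hY hδ0.le hXY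
  have hA : 0 ≤ P * δ * S := by positivity
  have hB : 0 ≤ δ * W ^ 2 := by positivity
  have hRe : δ * R = 2 * (P * δ) * S + 2 * δ * W ^ 2 + δ := by rw [hR]; ring
  rw [abs_lt]
  constructor <;> linarith

end Pool.Agent.Lib.MP_e62a5f_gt
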