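import Pool.Agent.Lib.MP_e62a5f_gt.Approx
import Pool.Agent.Lib.MP_e62a5f_gt.Collapse

set_option autoImplicit false

open Set Filter Topology MeasureTheory

namespace Pool.Agent.Lib.MP_e62a5f_gt

open scoped RealInnerProductSpace

theorem integrable_exp_neg_norm {V : Type*} [NormedAddCommGroup V] [NormedSpace ℝ V]
    [FiniteDimensional ℝ V] [MeasurableSpace V] [BorelSpace V] (μ : Measure V)
    [μ.IsAddHaarMeasure] {c : ℝ} (hc : 0 < c) : Integrable (fun x : V => Real.exp (-(c * ‖x‖))) μ := by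
  set m : ℕ := Module.finrank ℝ V + 1 with hm
  have h1 : Integrable (fun x : V => (1 + ‖x‖) ^ (-(m : ℝ))) μ :=
    integrable_one_add_norm (by rw [hm]; push_cast; linarith)
  have h2 := h1.const_mul (Real.exp c * m.factorial / c ^ m)
  refine h2.mono' (by fun_prop) (Eventually.of_forall fun x => ?_)
  rw [Real.norm_eq_abs, Real.abs_exp]
  have hpos : (0:ℝ) < 1 + ‖x‖ := by positivity
  have h3 := Real.pow_div_factorial_le_exp (c * (1 + ‖x‖)) (by positivity) m
  have hf : (0:ℝ) < m.factorial := by positivity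
  have h4 : Real.exp (-(c * ‖x‖)) * Real.exp (c * (1 + ‖x‖)) = Real.exp c := by
    rw [← Real.exp_add]
    congr 1
    ring
  have h5 : Real.exp (-(c * ‖x‖)) * ((c * (1 + ‖x‖)) ^ m / m.factorial) ≤ Real.exp c := by
    rw [← h4]
    exact mul_le_mul_of_nonneg_left h3 (Real.exp_pos _).le
  rw [Real.rpow_neg hpos.le, Real.rpow_natCast]
  rw [mul_pow] at h5
  have hcm : 0 < c ^ m := by positivity
  have hpm : 0 < (1 + ‖x‖) ^ m := by positivity
  rw [← div_eq_mul_inv, div_div, le_div_iff₀ (by positivity)]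
  have h6 : Real.exp (-(c * ‖x‖)) * (c ^ m * (1 + ‖x‖) ^ m / m.factorial) =
      (Real.exp (-(c * ‖x‖)) * (c ^ m * (1 + ‖x‖) ^ m)) / m.factorial := by ring
  rw [h6, div_le_iff₀ hf] at h5
  exact h5

/-- Positive definiteness of the norm metric in the sense of the problem. -/
def PDNorm (U : Type*) [NormedAddCommGroup U] : Prop :=
  ∀ (s : Finset U) (v : U → ℝ), 0 ≤ ∑ i ∈ s, ∑ j ∈ s, v i * v j * Real.exp (-‖i - j‖)

theorem approxU {U : Type*} [NormedAddCommGroup U] [NormedSpace ℝ U] [FiniteDimensional ℝ U]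
    (hU : PDNorm U) (F : Finset U) {η : ℝ} (hη : 0 < η) :
    ∃ (k : ℕ) (θ : Fin k → U →ₗ[ℝ] ℝ), ∀ x ∈ F, |∑ j, |θ j x| - ‖x‖| < η := by
  classical
  let V := EuclideanSpace ℝ (Fin (Module.finrank ℝ U))
  let e : V ≃L[ℝ] U := ContinuousLinearEquiv.ofFinrankEq (by simp [V])
  let N : V → ℝ := fun x => ‖e x‖
  have hN0 : ∀ x, 0 ≤ N x := fun x => norm_nonneg _
  have hNs : ∀ (t : ℝ) x, N (t • x) = |t| * N x := by
    intro t x
    simp only [N, map_smul, norm_smul, Real.norm_eq_abs]
  have hφ : PDFun (fun x : V => Real.exp (-N x)) := by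
    refine ⟨by fun_prop, ?_, ?_, ?_, ?_, ?_⟩
    · -- integrability
      obtain ⟨K, hK, hKe⟩ : ∃ K : ℝ, 0 < K ∧ ∀ x : V, ‖x‖ ≤ K * ‖e x‖ := by
        refine ⟨‖(e.symm : U →L[ℝ] V)‖ + 1, by positivity, fun x => ?_⟩
        have := (e.symm : U →L[ℝ] V).le_opNorm (e x)
        simp only [ContinuousLinearEquiv.coe_coe, ContinuousLinearEquiv.symm_apply_apply] at this
        nlinarith [norm_nonneg (e x)]
      refine (integrable_exp_neg_norm (V := V) volume (c := K⁻¹) (by positivity)).mono'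
        (by fun_prop) (Eventually.of_forall fun x => ?_)
      rw [Real.norm_eq_abs, Real.abs_exp]
      apply Real.exp_le_exp.2
      have := hKe x
      rw [neg_le_neg_iff, inv_mul_le_iff₀ hK]
      exact this
    · intro x
      rw [Real.abs_exp]
      exact Real.exp_le_one_iff.2 (neg_nonpos.2 (hN0 x))
    · simp [N]
    · intro x
      simp [N]
    · intro s v
      have := hU (s.map e.toEquiv.toEmbedding) (fun u => v (e.symm u))
      rw [Finset.sum_map] at this
      refine this.trans_eq ?_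
      refine Finset.sum_congr rfl fun i _ => ?_
      rw [Finset.sum_map]
      refine Finset.sum_congr rfl fun j _ => ?_
      simp [N]
  obtain ⟨ν, hν, hνφ⟩ := hφ.bochner
  obtain ⟨k, ω, hω⟩ := approx N hN0 hNs ν hνφ (F.image e.symm) hη
  refine ⟨k, fun j => ((innerₗ V) (ω j)).comp (e.symm : U →ₗ[ℝ] V), fun x hx => ?_⟩
  have := hω (e.symm x) (Finset.mem_image_of_mem _ hx)
  simp only [N, ContinuousLinearEquiv.apply_symm_apply] at this
  refine lt_of_eq_of_lt ?_ this
  congr 2
  refine Finset.sum_congr rfl fun j _ => ?_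
  simp only [LinearMap.comp_apply, innerₗ_apply_apply]
  rw [real_inner_comm]
  rfl

/-- The main inequality in a finite-dimensional positive definite normed space. -/
theorem main_ineq {U : Type*} [NormedAddCommGroup U] [NormedSpace ℝ U] [FiniteDimensional ℝ U]
    (hU : PDNorm U) : ∃ C : ℝ, 0 ≤ C ∧ ∀ (X Y : Type) [Fintype X] [Fintype Y] [DecidableEq X]
      (px : X → U) (py : Y → U) (c : Y → X) (ε : ℝ), 0 ≤ ε → (∀ y, ‖py y - px (c y)‖ ≤ ε) →
      ∀ (v : Y → ℝ) (m : X → ℝ), (∀ x, m x = ∑ y, if c y = x then v y else 0) →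
      (∑ x, ∑ x', m x * m x' * Real.exp (-‖px x - px x'‖)) -
        C * Fintype.card X * ε * (∑ x, |m x|) ^ 2 ≤
      ∑ y, ∑ y', v y * v y' * Real.exp (-‖py y - py y'‖) := by
  classical
  let n := Module.finrank ℝ U
  let V := EuclideanSpace ℝ (Fin n)
  let e : V ≃L[ℝ] U := ContinuousLinearEquiv.ofFinrankEq (by simp [V, n])
  let b : Fin n → U := fun k => e (EuclideanSpace.single k 1)
  let K : ℝ := ‖(e.symm : U →L[ℝ] V)‖
  have hK : 0 ≤ K := norm_nonneg _
  have hcoord : ∀ (θ : U →ₗ[ℝ] ℝ) (u : U), |θ u| ≤ K * ‖u‖ * ∑ k, |θ (b k)| := by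
    intro θ u
    have h1 : u = ∑ k, (e.symm u) k • b k := by
      have h2 : e.symm u = ∑ k, (e.symm u) k • EuclideanSpace.single k (1:ℝ) := by
        ext i
        simp [Finset.sum_apply, Pi.single_apply]
      conv_lhs => rw [← e.apply_symm_apply u, h2]
      rw [map_sum]
      exact Finset.sum_congr rfl fun k _ => map_smul _ _ _
    conv_lhs => rw [h1, map_sum]
    refine (Finset.abs_sum_le_sum_abs _ _).trans ?_
    rw [Finset.mul_sum]
    refine Finset.sum_le_sum fun k _ => ?_
    rw [map_smul, smul_eq_mul, abs_mul]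
    apply mul_le_mul_of_nonneg_right _ (abs_nonneg _)
    have h3 : |(e.symm u) k| ≤ ‖e.symm u‖ := by
      have := EuclideanSpace.norm_eq (e.symm u)
      rw [this]
      apply Real.le_sqrt_of_sq_le
      rw [sq_abs]
      refine (Finset.single_le_sum (f := fun i => ‖(e.symm u) i‖ ^ 2) (fun i _ => by positivity)
        (Finset.mem_univ k)).trans' ?_
      simp
    exact h3.trans ((e.symm : U →L[ℝ] V).le_opNorm u)
  let B : ℝ := ∑ k, ‖b k‖
  have hB : 0 ≤ B := Finset.sum_nonneg fun _ _ => norm_nonneg _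
  refine ⟨K * B, by positivity, ?_⟩
  intro X Y _ _ _ px py c ε hε hc v m hm
  let A : ℝ := ∑ x, ∑ x', m x * m x' * Real.exp (-‖px x - px x'‖)
  let D : ℝ := ∑ y, ∑ y', v y * v y' * Real.exp (-‖py y - py y'‖)
  have hη : ∀ η : ℝ, 0 < η → A - K * B * Fintype.card X * ε * (∑ x, |m x|) ^ 2 ≤
      D + η * ((∑ x, |m x|) ^ 2 + (∑ y, |v y|) ^ 2 + Fintype.card X * K * ε * n * (∑ x, |m x|) ^ 2) := by
    intro η hη
    let F : Finset U := (Finset.univ.image fun p : Y × Y => py p.1 - py p.2) ∪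
      (Finset.univ.image fun p : X × X => px p.1 - px p.2) ∪ Finset.univ.image b
    obtain ⟨k, θ, hθ⟩ := approxU hU F hη
    let ρ : Fin k → ℝ := fun j => K * ε * ∑ i, |θ j (b i)|
    have hρ : ∀ j, 0 ≤ ρ j := fun j => by positivity
    have hmain := main_fin (Finset.univ : Finset (Fin k)) (fun j y => θ j (py y))
      (fun j x => θ j (px x)) c ρ hρ (by
        intro j y
        rw [← map_sub]
        refine (hcoord (θ j) _).trans ?_
        show K * ‖py y - px (c y)‖ * _ ≤ K * ε * _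
        gcongr
        exact hc y) v m hm
    have hρsum : ∑ j, ρ j ≤ K * ε * (B + n * η) := by
      simp only [ρ]
      rw [← Finset.mul_sum]
      apply mul_le_mul_of_nonneg_left _ (by positivity)
      rw [Finset.sum_comm]
      have h1 : ∀ i, ∑ j, |θ j (b i)| ≤ ‖b i‖ + η := by
        intro i
        have := (abs_lt.1 (hθ (b i) (by simp [F]))).2
        linarith
      refine (Finset.sum_le_sum fun i _ => h1 i).trans_eq ?_
      rw [Finset.sum_add_distrib]
      simp [B]
    have happX : ∀ x x', |Real.exp (-∑ j, |θ j (px x) - θ j (px x')|) - Real.exp (-‖px x - px x'‖)| ≤ η := by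
      intro x x'
      have h1 := hθ (px x - px x') (by
        simp only [F, Finset.mem_union, Finset.mem_image]
        exact Or.inl (Or.inr ⟨(x, x'), Finset.mem_univ _, rfl⟩))
      refine (abs_exp_sub_exp_le (Finset.sum_nonneg fun _ _ => abs_nonneg _) (norm_nonneg _)).trans ?_
      simp only [← map_sub]
      exact h1.le
    have happY : ∀ y y', |Real.exp (-∑ j, |θ j (py y) - θ j (py y')|) - Real.exp (-‖py y - py y'‖)| ≤ η := by
      intro x x'
      have h1 := hθ (py x - py x') (by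
        simp only [F, Finset.mem_union, Finset.mem_image]
        exact Or.inl (Or.inl ⟨(x, x'), Finset.mem_univ _, rfl⟩))
      refine (abs_exp_sub_exp_le (Finset.sum_nonneg fun _ _ => abs_nonneg _) (norm_nonneg _)).trans ?_
      simp only [← map_sub]
      exact h1.le
    have hcmp : ∀ {Z : Type} [Fintype Z] (w : Z → ℝ) (G H : Z → Z → ℝ),
        (∀ z z', |G z z' - H z z'| ≤ η) →
        |∑ z, ∑ z', w z * w z' * G z z' - ∑ z, ∑ z', w z * w z' * H z z'| ≤ η * (∑ z, |w z|) ^ 2 := by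
      intro Z _ w G H hGH
      rw [← Finset.sum_sub_distrib, sq, Finset.sum_mul_sum, Finset.mul_sum]
      refine (Finset.abs_sum_le_sum_abs _ _).trans (Finset.sum_le_sum fun z _ => ?_)
      rw [← Finset.sum_sub_distrib, Finset.mul_sum]
      refine (Finset.abs_sum_le_sum_abs _ _).trans (Finset.sum_le_sum fun z' _ => ?_)
      rw [← mul_sub, abs_mul, abs_mul]
      have := hGH z z'
      calc |w z| * |w z'| * |G z z' - H z z'| ≤ |w z| * |w z'| * η := by gcongr
        _ = η * (|w z| * |w z'|) := by ring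
    have hX := (abs_le.1 (hcmp m (fun x x' => Real.exp (-∑ j, |θ j (px x) - θ j (px x')|))
      (fun x x' => Real.exp (-‖px x - px x'‖)) happX)).1
    have hY := (abs_le.1 (hcmp v (fun x x' => Real.exp (-∑ j, |θ j (py x) - θ j (py x')|))
      (fun x x' => Real.exp (-‖py x - py x'‖)) happY)).2
    have hcard : (Fintype.card X * ∑ j, ρ j) * (∑ x, |m x|) ^ 2 ≤
        (Fintype.card X * (K * ε * (B + n * η))) * (∑ x, |m x|) ^ 2 := by
      gcongr
    have e1 : (Fintype.card X * (K * ε * (B + n * η))) * (∑ x, |m x|) ^ 2 =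
        K * B * Fintype.card X * ε * (∑ x, |m x|) ^ 2 +
          η * (Fintype.card X * K * ε * n * (∑ x, |m x|) ^ 2) := by ring
    have e2 : η * ((∑ x, |m x|) ^ 2 + (∑ y, |v y|) ^ 2 + Fintype.card X * K * ε * n * (∑ x, |m x|) ^ 2)
        = η * (∑ x, |m x|) ^ 2 + η * (∑ y, |v y|) ^ 2 +
          η * (Fintype.card X * K * ε * n * (∑ x, |m x|) ^ 2) := by ring
    have hA : A = ∑ x, ∑ x', m x * m x' * Real.exp (-‖px x - px x'‖) := rfl
    have hD : D = ∑ y, ∑ y', v y * v y' * Real.exp (-‖py y - py y'‖) := rfl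
    rw [← hA] at hX
    rw [← hD] at hY
    rw [e2]
    linarith
  apply le_of_forall_pos_le_add
  intro δ hδ
  set Q : ℝ := (∑ x, |m x|) ^ 2 + (∑ y, |v y|) ^ 2 + Fintype.card X * K * ε * n * (∑ x, |m x|) ^ 2 with hQ
  have hQ0 : 0 ≤ Q := by positivity
  refine (hη (δ / (Q + 1)) (by positivity)).trans ?_
  have : δ / (Q + 1) * Q ≤ δ := by
    rw [div_mul_eq_mul_div, div_le_iff₀ (by positivity)]
    nlinarith
  linarith

end Pool.Agent.Lib.MP_e62a5f_gt
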