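import Pool.Agent.Lib.MP_e62a5f_gt.Bochner

set_option autoImplicit false

open Set Filter Topology MeasureTheory

namespace Pool.Agent.Lib.MP_e62a5f_gt

/-- Integrability of `g t * t ^ (-1-p)` on the half line. -/
theorem integrableOn_weight {p : ℝ} (hp0 : 0 < p) (hp1 : p < 1) (g : ℝ → ℝ) (hg : Measurable g)
    (C : ℝ) (_hC : 0 ≤ C) (h1 : ∀ t, 0 < t → t ≤ 1 → |g t| ≤ C * t) (h2 : ∀ t, 1 < t → |g t| ≤ C) :
    IntegrableOn (fun t => g t * t ^ (-1 - p)) (Ioi 0) := by
  have hm : Measurable fun t : ℝ => g t * t ^ (-1 - p) := by fun_prop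
  have hs : Ioi (0:ℝ) = Ioc 0 1 ∪ Ioi 1 := (Ioc_union_Ioi_eq_Ioi zero_le_one).symm
  rw [hs]
  refine IntegrableOn.union ?_ ?_
  · have h3 : IntegrableOn (fun t : ℝ => C * t ^ (-p)) (Ioc 0 1) := by
      apply Integrable.const_mul
      have := (intervalIntegral.intervalIntegrable_rpow' (a := 0) (b := 1) (r := -p) (by linarith))
      exact (intervalIntegrable_iff_integrableOn_Ioc_of_le zero_le_one).1 this
    refine Integrable.mono' h3 hm.aestronglyMeasurable ?_
    rw [ae_restrict_iff' measurableSet_Ioc]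
    refine Eventually.of_forall fun t ht => ?_
    rw [norm_mul, Real.norm_eq_abs, Real.norm_eq_abs, abs_of_pos (Real.rpow_pos_of_pos ht.1 _)]
    have e1 : t ^ (-p) = t * t ^ (-1 - p) := by
      have : -p = 1 + (-1 - p) := by ring
      rw [this, Real.rpow_add ht.1, Real.rpow_one]
    rw [e1, ← mul_assoc]
    exact mul_le_mul_of_nonneg_right (h1 t ht.1 ht.2) (Real.rpow_nonneg ht.1.le _)
  · have h3 : IntegrableOn (fun t : ℝ => C * t ^ (-1 - p)) (Ioi 1) := by
      apply Integrable.const_mul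
      exact integrableOn_Ioi_rpow_of_lt (by linarith) zero_lt_one
    refine Integrable.mono' h3 hm.aestronglyMeasurable ?_
    rw [ae_restrict_iff' measurableSet_Ioi]
    refine Eventually.of_forall fun t ht => ?_
    have ht0 : (0:ℝ) < t := lt_trans zero_lt_one ht
    rw [norm_mul, Real.norm_eq_abs, Real.norm_eq_abs, abs_of_pos (Real.rpow_pos_of_pos ht0 _)]
    exact mul_le_mul_of_nonneg_right (h2 t ht) (Real.rpow_nonneg ht0.le _)

/-- Scaling of the integral. -/
theorem integral_weight_scale (p : ℝ) (g : ℝ → ℝ) {b : ℝ} (hb : 0 < b) :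
    ∫ t in Ioi 0, g (b * t) * t ^ (-1 - p) = b ^ p * ∫ t in Ioi 0, g t * t ^ (-1 - p) := by
  have h := integral_comp_mul_left_Ioi (fun t => g t * t ^ (-1 - p)) 0 hb
  rw [mul_zero] at h
  have h2 : ∫ t in Ioi 0, g (b * t) * (b * t) ^ (-1 - p) =
      b ^ (-1 - p) * ∫ t in Ioi 0, g (b * t) * t ^ (-1 - p) := by
    rw [← integral_const_mul]
    refine setIntegral_congr_fun measurableSet_Ioi fun t ht => ?_
    have ht' : (0:ℝ) < t := ht
    rw [Real.mul_rpow hb.le ht'.le]
    ring
  rw [h2] at h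
  have hb1 : b ^ (-1 - p) = b⁻¹ * (b ^ p)⁻¹ := by
    rw [sub_eq_add_neg, Real.rpow_add hb, Real.rpow_neg_one, Real.rpow_neg hb.le]
  have hbp : 0 < b ^ p := Real.rpow_pos_of_pos hb p
  rw [hb1, smul_eq_mul] at h
  field_simp at h
  rw [h]

theorem integral_weight_pos {p : ℝ} (hp0 : 0 < p) (hp1 : p < 1) (g : ℝ → ℝ) (hg : Measurable g)
    (C : ℝ) (hC : 0 ≤ C) (h1 : ∀ t, 0 < t → t ≤ 1 → |g t| ≤ C * t) (h2 : ∀ t, 1 < t → |g t| ≤ C)
    (hg0 : ∀ t, 0 < t → 0 ≤ g t) (hg1 : ∀ t, 0 < t → t < 1 → 0 < g t) :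
    0 < ∫ t in Ioi 0, g t * t ^ (-1 - p) := by
  have hint := integrableOn_weight hp0 hp1 g hg C hC h1 h2
  rw [setIntegral_pos_iff_support_of_nonneg_ae ?_ hint]
  · have hsub : Ioo (0:ℝ) 1 ⊆ Function.support (fun t => g t * t ^ (-1 - p)) ∩ Ioi 0 := by
      intro t ht
      refine ⟨?_, ht.1⟩
      rw [Function.mem_support]
      exact (mul_pos (hg1 t ht.1 ht.2) (Real.rpow_pos_of_pos ht.1 _)).ne'
    refine lt_of_lt_of_le ?_ (measure_mono hsub)
    simp
  · rw [EventuallyLE, ae_restrict_iff' measurableSet_Ioi]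
    refine Eventually.of_forall fun t ht => ?_
    exact mul_nonneg (hg0 t ht) (Real.rpow_nonneg (le_of_lt ht) _)

/-- `K p = ∫_0^∞ (1 - cos t) t^{-1-p} dt`. -/
noncomputable def Kc (p : ℝ) : ℝ := ∫ t in Ioi (0:ℝ), (1 - Real.cos t) * t ^ (-1 - p)

/-- `L p = ∫_0^∞ (1 - exp (-t)) t^{-1-p} dt`. -/
noncomputable def Lc (p : ℝ) : ℝ := ∫ t in Ioi (0:ℝ), (1 - Real.exp (-t)) * t ^ (-1 - p)

theorem bound_cos1 (a t : ℝ) (ht : 0 < t) (ht1 : t ≤ 1) :
    |1 - Real.cos (a * t)| ≤ (a ^ 2 + 2) * t := by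
  have h1 : 1 - (a * t) ^ 2 / 2 ≤ Real.cos (a * t) := Real.one_sub_sq_div_two_le_cos
  have h2 := Real.cos_le_one (a * t)
  rw [abs_of_nonneg (by linarith)]
  have h3 : t ^ 2 ≤ t := by nlinarith
  nlinarith [sq_nonneg a, mul_nonneg (sq_nonneg a) ht.le]

theorem bound_cos2 (a t : ℝ) : |1 - Real.cos (a * t)| ≤ a ^ 2 + 2 := by
  have h2 := Real.cos_le_one (a * t)
  have h3 := Real.neg_one_le_cos (a * t)
  rw [abs_of_nonneg (by linarith)]
  nlinarith [sq_nonneg a]

theorem bound_exp1 (b t : ℝ) (hb : 0 ≤ b) (ht : 0 < t) :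
    |1 - Real.exp (-(b * t))| ≤ (b + 1) * t := by
  have h1 := Real.add_one_le_exp (-(b * t))
  have h2 : Real.exp (-(b * t)) ≤ 1 := Real.exp_le_one_iff.2 (by have := mul_nonneg hb ht.le; linarith)
  rw [abs_of_nonneg (by linarith)]
  nlinarith

theorem bound_exp2 (b t : ℝ) (hb : 0 ≤ b) (ht : 0 < t) :
    |1 - Real.exp (-(b * t))| ≤ b + 1 := by
  have h2 : Real.exp (-(b * t)) ≤ 1 := Real.exp_le_one_iff.2 (by have := mul_nonneg hb ht.le; linarith)
  have h3 := Real.exp_pos (-(b * t))
  rw [abs_of_nonneg (by linarith)]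
  linarith

theorem Kc_pos {p : ℝ} (hp0 : 0 < p) (hp1 : p < 1) : 0 < Kc p := by
  apply integral_weight_pos hp0 hp1 (fun t => 1 - Real.cos t) (by fun_prop) 3 (by norm_num)
  · intro t ht ht1
    have := bound_cos1 1 t ht ht1
    norm_num at this ⊢
    exact this
  · intro t _
    have := bound_cos2 1 t
    norm_num at this ⊢
    exact this
  · intro t _
    have := Real.cos_le_one t
    linarith
  · intro t ht ht1
    have : Real.cos t < 1 := by
      have h := Real.cos_lt_cos_of_nonneg_of_le_pi (x := 0) (y := t) le_rfl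
        (by linarith [Real.pi_gt_three]) ht
      simpa using h
    linarith

theorem Lc_pos {p : ℝ} (hp0 : 0 < p) (hp1 : p < 1) : 0 < Lc p := by
  apply integral_weight_pos hp0 hp1 (fun t => 1 - Real.exp (-t)) (by fun_prop) 2 (by norm_num)
  · intro t ht ht1
    have := bound_exp1 1 t zero_le_one ht
    norm_num at this ⊢
    exact this
  · intro t ht
    have := bound_exp2 1 t zero_le_one (by linarith)
    norm_num at this ⊢
    exact this
  · intro t ht
    have : Real.exp (-t) ≤ 1 := Real.exp_le_one_iff.2 (by linarith)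
    linarith
  · intro t ht ht1
    have : Real.exp (-t) < 1 := by
      rw [← Real.exp_zero]
      exact Real.exp_lt_exp.2 (by linarith)
    linarith

theorem integral_cos_weight {p : ℝ} (hp0 : 0 < p) (a : ℝ) :
    ∫ t in Ioi (0:ℝ), (1 - Real.cos (a * t)) * t ^ (-1 - p) = |a| ^ p * Kc p := by
  rcases eq_or_ne a 0 with rfl | ha
  · simp [Real.zero_rpow hp0.ne']
  · have h1 : ∀ t : ℝ, Real.cos (a * t) = Real.cos (|a| * t) := by
      intro t
      rw [← Real.cos_abs (a * t), ← Real.cos_abs (|a| * t), abs_mul, abs_mul, abs_abs]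
    simp only [h1]
    exact integral_weight_scale p (fun t => 1 - Real.cos t) (abs_pos.2 ha)

theorem integral_exp_weight {p : ℝ} (hp0 : 0 < p) (b : ℝ) (hb : 0 ≤ b) :
    ∫ t in Ioi (0:ℝ), (1 - Real.exp (-(b * t))) * t ^ (-1 - p) = b ^ p * Lc p := by
  rcases hb.eq_or_lt with rfl | hb
  · simp [Real.zero_rpow hp0.ne']
  · exact integral_weight_scale p (fun t => 1 - Real.exp (-t)) hb

/-- Moments of a measure on the line with Cauchy-type characteristic function along a ray. -/
theorem moment {Ω : Type*} [MeasurableSpace Ω] (ν : Measure Ω) [IsFiniteMeasure ν]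
    (a : Ω → ℝ) (ha : Measurable a) (N : ℝ) (hN : 0 ≤ N) (hν : ν.real univ = 1)
    (hchar : ∀ t : ℝ, 0 < t → ∫ ω, Real.cos (a ω * t) ∂ν = Real.exp (-(N * t)))
    {p : ℝ} (hp0 : 0 < p) (hp1 : p < 1) :
    Integrable (fun ω => |a ω| ^ p) ν ∧ Kc p * ∫ ω, |a ω| ^ p ∂ν = Lc p * N ^ p := by
  have hK := Kc_pos hp0 hp1
  have hL := Lc_pos hp0 hp1
  have hinner1 : ∀ ω, ∫⁻ t in Ioi (0:ℝ), ENNReal.ofReal ((1 - Real.cos (a ω * t)) * t ^ (-1 - p)) =
      ENNReal.ofReal (|a ω| ^ p * Kc p) := by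
    intro ω
    rw [← integral_cos_weight hp0, ofReal_integral_eq_lintegral_ofReal]
    · exact integrableOn_weight hp0 hp1 (fun t => 1 - Real.cos (a ω * t)) (by fun_prop)
        ((a ω) ^ 2 + 2) (by positivity) (fun t ht ht1 => bound_cos1 _ _ ht ht1)
        (fun t _ => bound_cos2 _ _)
    · rw [EventuallyLE, ae_restrict_iff' measurableSet_Ioi]
      refine Eventually.of_forall fun t ht => ?_
      exact mul_nonneg (by have := Real.cos_le_one (a ω * t); linarith)
        (Real.rpow_nonneg (le_of_lt ht) _)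
  have hinner2 : ∀ t ∈ Ioi (0:ℝ), ∫⁻ ω, ENNReal.ofReal ((1 - Real.cos (a ω * t)) * t ^ (-1 - p)) ∂ν =
      ENNReal.ofReal ((1 - Real.exp (-(N * t))) * t ^ (-1 - p)) := by
    intro t ht
    have ht' : (0:ℝ) < t := ht
    have hci : Integrable (fun ω => Real.cos (a ω * t)) ν :=
      Integrable.of_bound (by
        have : Measurable fun ω => Real.cos (a ω * t) := by fun_prop
        exact this.aestronglyMeasurable) 1 (Eventually.of_forall fun ω => Real.abs_cos_le_one _)
    rw [← hchar t ht', ← ofReal_integral_eq_lintegral_ofReal]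
    · congr 1
      rw [integral_mul_const, integral_sub (integrable_const _) hci, integral_const, hν]
      simp
    · exact ((integrable_const _).sub hci).mul_const _
    · refine Eventually.of_forall fun ω => ?_
      exact mul_nonneg (by have := Real.cos_le_one (a ω * t); simp only [sub_nonneg]; exact this)
        (Real.rpow_nonneg ht'.le _)
  have hswap := lintegral_lintegral_swap (μ := ν) (ν := volume.restrict (Ioi (0:ℝ)))
    (f := fun ω t => ENNReal.ofReal ((1 - Real.cos (a ω * t)) * t ^ (-1 - p))) (by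
      apply Measurable.aemeasurable
      apply ENNReal.measurable_ofReal.comp
      fun_prop)
  simp only [hinner1] at hswap
  rw [setLIntegral_congr_fun measurableSet_Ioi hinner2] at hswap
  have hR : ∫⁻ t in Ioi (0:ℝ), ENNReal.ofReal ((1 - Real.exp (-(N * t))) * t ^ (-1 - p)) =
      ENNReal.ofReal (N ^ p * Lc p) := by
    rw [← integral_exp_weight hp0 N hN, ofReal_integral_eq_lintegral_ofReal]
    · exact integrableOn_weight hp0 hp1 (fun t => 1 - Real.exp (-(N * t))) (by fun_prop)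
        (N + 1) (by positivity) (fun t ht _ => bound_exp1 _ _ hN ht)
        (fun t ht => bound_exp2 _ _ hN (by linarith))
    · rw [EventuallyLE, ae_restrict_iff' measurableSet_Ioi]
      refine Eventually.of_forall fun t ht => ?_
      have ht' : (0:ℝ) < t := ht
      refine mul_nonneg ?_ (Real.rpow_nonneg ht'.le _)
      have : Real.exp (-(N * t)) ≤ 1 :=
        Real.exp_le_one_iff.2 (by have := mul_nonneg hN ht'.le; linarith)
      simpa using this
  rw [hR] at hswap
  have hm : Measurable fun ω => |a ω| ^ p := by fun_prop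
  have hm2 : Measurable fun ω => |a ω| ^ p * Kc p := hm.mul_const _
  have hi2 : Integrable (fun ω => |a ω| ^ p * Kc p) ν := by
    rw [← lintegral_ofReal_ne_top_iff_integrable hm2.aestronglyMeasurable
      (Eventually.of_forall fun ω => by simp only [Pi.zero_apply]; positivity), hswap]
    exact ENNReal.ofReal_ne_top
  have hi1 : Integrable (fun ω => |a ω| ^ p) ν := by
    have := hi2.mul_const (Kc p)⁻¹
    refine this.congr (Eventually.of_forall fun ω => ?_)
    simp only
    field_simp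
  refine ⟨hi1, ?_⟩
  rw [← ofReal_integral_eq_lintegral_ofReal hi2
    (Eventually.of_forall fun ω => by simp only [Pi.zero_apply]; positivity)] at hswap
  have h3 := (ENNReal.ofReal_eq_ofReal_iff (integral_nonneg fun ω => by
    simp only [Pi.zero_apply]; positivity) (by positivity)).1 hswap
  rw [integral_mul_const] at h3
  linarith

end Pool.Agent.Lib.MP_e62a5f_gt
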