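import Mathlib

set_option autoImplicit false

open Set Filter Topology MeasureTheory

namespace Pool.Agent.Lib.MP_e62a5f_gt

variable {ι : Type*} [Fintype ι]

/-- Symmetric real kernels with nonnegative quadratic form. -/
def Psd (K : ι → ι → ℝ) : Prop :=
  (∀ i j, K i j = K j i) ∧ ∀ v : ι → ℝ, 0 ≤ ∑ i, ∑ j, v i * v j * K i j

theorem psd_iff (K : ι → ι → ℝ) : Psd K ↔ (Matrix.of K).PosSemidef := by
  rw [Matrix.posSemidef_iff_dotProduct_mulVec]
  constructor
  · rintro ⟨h1, h2⟩
    refine ⟨Matrix.IsHermitian.ext fun i j => by simpa using h1 j i, fun x => ?_⟩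
    have := h2 x
    simp only [dotProduct, Matrix.mulVec, Matrix.of_apply, star_trivial, Pi.star_apply]
    refine this.trans_eq ?_
    refine Finset.sum_congr rfl fun i _ => ?_
    rw [Finset.mul_sum]
    refine Finset.sum_congr rfl fun j _ => by ring
  · rintro ⟨h1, h2⟩
    refine ⟨fun i j => by simpa using h1.apply j i, fun v => ?_⟩
    have := h2 v
    simp only [dotProduct, Matrix.mulVec, Matrix.of_apply, star_trivial, Pi.star_apply] at this
    refine this.trans_eq ?_
    refine Finset.sum_congr rfl fun i _ => ?_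
    rw [Finset.mul_sum]
    refine Finset.sum_congr rfl fun j _ => by ring

theorem Psd.mul {K L : ι → ι → ℝ} (hK : Psd K) (hL : Psd L) : Psd fun i j => K i j * L i j := by
  rw [psd_iff] at *
  exact hK.hadamard hL

theorem Psd.add {K L : ι → ι → ℝ} (hK : Psd K) (hL : Psd L) : Psd fun i j => K i j + L i j := by
  refine ⟨fun i j => by simp only [hK.1 i j, hL.1 i j], fun v => ?_⟩
  simp only [mul_add, Finset.sum_add_distrib]
  exact add_nonneg (hK.2 v) (hL.2 v)

theorem Psd.sum {J : Type*} (s : Finset J) {K : J → ι → ι → ℝ} (hK : ∀ j ∈ s, Psd (K j)) :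
    Psd fun i i' => ∑ j ∈ s, K j i i' := by
  refine ⟨fun i j => Finset.sum_congr rfl fun k hk => (hK k hk).1 i j, fun v => ?_⟩
  have : ∑ i, ∑ j, v i * v j * ∑ k ∈ s, K k i j = ∑ k ∈ s, ∑ i, ∑ j, v i * v j * K k i j := by
    rw [Finset.sum_comm' (t' := Finset.univ) (s' := fun _ => s) (by simp)]
    refine Finset.sum_congr rfl fun i _ => ?_
    rw [Finset.sum_comm' (t' := Finset.univ) (s' := fun _ => s) (by simp)]
    refine Finset.sum_congr rfl fun j _ => ?_
    rw [Finset.mul_sum]
  rw [this]
  exact Finset.sum_nonneg fun k hk => (hK k hk).2 v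

theorem Psd.smul {K : ι → ι → ℝ} (hK : Psd K) {c : ℝ} (hc : 0 ≤ c) :
    Psd fun i j => c * K i j := by
  refine ⟨fun i j => by simp only [hK.1 i j], fun v => ?_⟩
  have : ∑ i, ∑ j, v i * v j * (c * K i j) = c * ∑ i, ∑ j, v i * v j * K i j := by
    simp only [Finset.mul_sum]
    refine Finset.sum_congr rfl fun i _ => Finset.sum_congr rfl fun j _ => by ring
  rw [this]
  exact mul_nonneg hc (hK.2 v)

theorem Psd.one : Psd fun (_ _ : ι) => (1 : ℝ) := by
  refine ⟨fun _ _ => rfl, fun v => ?_⟩
  have : ∑ i, ∑ j, v i * v j * 1 = (∑ i, v i) ^ 2 := by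
    rw [sq, Finset.sum_mul_sum]
    simp
  rw [this]
  positivity

theorem Psd.pow {K : ι → ι → ℝ} (hK : Psd K) (n : ℕ) : Psd fun i j => K i j ^ n := by
  induction n with
  | zero => simpa using Psd.one
  | succ n ih =>
    have := ih.mul hK
    simpa [pow_succ] using this

/-- Entrywise exponential minus one. -/
theorem Psd.exp_sub_one {K : ι → ι → ℝ} (hK : Psd K) : Psd fun i j => Real.exp (K i j) - 1 := by
  refine ⟨fun i j => by simp only [hK.1 i j], fun v => ?_⟩
  have h1 : ∀ i j, HasSum (fun n : ℕ => v i * v j * (K i j ^ n / (n.factorial : ℝ)))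
      (v i * v j * Real.exp (K i j)) := by
    intro i j
    have := NormedSpace.expSeries_div_hasSum_exp (K i j)
    rw [← Real.exp_eq_exp_ℝ] at this
    exact this.mul_left _
  have h2 : HasSum (fun n : ℕ => ∑ i, ∑ j, v i * v j * (K i j ^ n / (n.factorial : ℝ)))
      (∑ i, ∑ j, v i * v j * Real.exp (K i j)) :=
    hasSum_sum fun i _ => hasSum_sum fun j _ => h1 i j
  have h3 : ∀ n : ℕ, 0 ≤ ∑ i, ∑ j, v i * v j * (K i j ^ n / (n.factorial : ℝ)) := by
    intro n
    have := ((hK.pow n).smul (c := 1 / (n.factorial : ℝ)) (by positivity)).2 v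
    refine this.trans_eq ?_
    refine Finset.sum_congr rfl fun i _ => Finset.sum_congr rfl fun j _ => by ring
  have h4 := le_hasSum h2 0 (fun n _ => h3 n)
  simp only [pow_zero, Nat.factorial_zero, Nat.cast_one, div_one, mul_one] at h4
  have h5 : ∑ i, ∑ j, v i * v j * (Real.exp (K i j) - 1) =
      (∑ i, ∑ j, v i * v j * Real.exp (K i j)) - ∑ i, ∑ j, v i * v j := by
    simp only [← Finset.sum_sub_distrib]
    refine Finset.sum_congr rfl fun i _ => Finset.sum_congr rfl fun j _ => by ring
  simp only [h5]
  linarith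

/-- The kernel `L/2 - |a i - a j|` is positive semidefinite when all the `a i` lie in an interval of
length `L`. -/
theorem psd_interval (a : ι → ℝ) (α L : ℝ) (hL : 0 ≤ L) (ha : ∀ i, α ≤ a i ∧ a i ≤ α + L) :
    Psd fun i j => L / 2 - |a i - a j| := by
  refine ⟨fun i j => by simp only [abs_sub_comm (a i) (a j)], fun v => ?_⟩
  let μ : Measure ℝ := volume.restrict (Ico α (α + L))
  have hμ : IsFiniteMeasure μ := by
    refine ⟨?_⟩
    simp [μ]
  let F : ι → ℝ → ℝ := fun i r => if r < a i then 1 else -1
  have hFm : ∀ i, Measurable (F i) := by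
    intro i
    exact Measurable.ite measurableSet_Iio measurable_const measurable_const
  have hFFint : ∀ i j, Integrable (fun r => F i r * F j r) μ := by
    intro i j
    refine Integrable.of_bound ((hFm i).mul (hFm j)).aestronglyMeasurable 1 ?_
    refine Filter.Eventually.of_forall fun r => ?_
    simp only [F]
    split_ifs <;> simp
  have hFF : ∀ i j, ∫ r, F i r * F j r ∂μ = L - 2 * |a i - a j| := by
    intro i j
    have h1 : ∀ r, F i r * F j r = 1 - 2 * (Ico (min (a i) (a j)) (max (a i) (a j))).indicator (fun _ => (1:ℝ)) r := by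
      intro r
      by_cases hi : r < a i <;> by_cases hj : r < a j
      · rw [indicator_of_notMem (by simp only [mem_Ico, not_and]; intro h; exact absurd h (not_le.2 (lt_min hi hj)))]
        simp [F, hi, hj]
      · rw [indicator_of_mem (by rw [mem_Ico]; exact ⟨(min_le_right _ _).trans (not_lt.1 hj), lt_of_lt_of_le hi (le_max_left _ _)⟩)]
        simp only [F, hi, hj, if_true, if_false]; norm_num
      · rw [indicator_of_mem (by rw [mem_Ico]; exact ⟨(min_le_left _ _).trans (not_lt.1 hi), lt_of_lt_of_le hj (le_max_right _ _)⟩)]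
        simp only [F, hi, hj, if_true, if_false]; norm_num
      · rw [indicator_of_notMem (by simp only [mem_Ico, not_and]; intro _; exact not_lt.2 (max_le (not_lt.1 hi) (not_lt.1 hj)))]
        simp [F, hi, hj]
    simp only [h1]
    rw [integral_sub (integrable_const _) (by
      apply Integrable.const_mul
      exact (integrable_const _).indicator measurableSet_Ico)]
    rw [integral_const, integral_const_mul, integral_indicator measurableSet_Ico, integral_const]
    have h2 : μ.real univ = L := by
      simp [μ, measureReal_def, hL]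
    have h3 : (μ.restrict (Ico (min (a i) (a j)) (max (a i) (a j)))).real univ = |a i - a j| := by
      have hsub : Ico (min (a i) (a j)) (max (a i) (a j)) ⊆ Ico α (α + L) :=
        Ico_subset_Ico (le_min (ha i).1 (ha j).1) (max_le (ha i).2 (ha j).2)
      simp only [μ, measureReal_def, Measure.restrict_apply_univ]
      rw [Measure.restrict_apply measurableSet_Ico, inter_eq_self_of_subset_left hsub,
        Real.volume_Ico, max_sub_min_eq_abs, ENNReal.toReal_ofReal (abs_nonneg _), abs_sub_comm]
    rw [h2, h3]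
    simp
  have hkey : ∑ i, ∑ j, v i * v j * (L / 2 - |a i - a j|) = (1/2) * ∫ r, (∑ i, v i * F i r) ^ 2 ∂μ := by
    have h1 : ∀ r, (∑ i, v i * F i r) ^ 2 = ∑ i, ∑ j, v i * v j * (F i r * F j r) := by
      intro r
      rw [sq, Finset.sum_mul_sum]
      refine Finset.sum_congr rfl fun i _ => Finset.sum_congr rfl fun j _ => by ring
    simp only [h1]
    rw [integral_finsetSum _ fun i _ => integrable_finsetSum _ fun j _ => (hFFint i j).const_mul _]
    rw [Finset.mul_sum]
    refine Finset.sum_congr rfl fun i _ => ?_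
    rw [integral_finsetSum _ fun j _ => (hFFint i j).const_mul _, Finset.mul_sum]
    refine Finset.sum_congr rfl fun j _ => ?_
    rw [integral_const_mul, hFF]
    ring
  simp only [hkey]
  have : 0 ≤ ∫ r, (∑ i, v i * F i r) ^ 2 ∂μ := integral_nonneg fun r => by positivity
  positivity

end Pool.Agent.Lib.MP_e62a5f_gt
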