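import Pool.Agent.Lib.MP_e62a5f_gt.Psd

set_option autoImplicit false

open Set Filter Topology MeasureTheory

namespace Pool.Agent.Lib.MP_e62a5f_gt

variable {V : Type*} [NormedAddCommGroup V] [MeasurableSpace V] [BorelSpace V]
  [SecondCountableTopology V]

theorem integral_comp_simple (μ : Measure V) [IsFiniteMeasure μ] (s : SimpleFunc V V) (g : V → ℝ) :
    ∫ x, g (s x) ∂μ = ∑ a ∈ s.range, μ.real (s ⁻¹' {a}) * g a := by
  have h1 : ∀ x, g (s x) = ∑ a ∈ s.range, (s ⁻¹' {a}).indicator (fun _ => g a) x := by
    intro x
    rw [Finset.sum_eq_single (s x)]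
    · rw [indicator_of_mem (by simp)]
    · intro b _ hb
      rw [indicator_of_notMem (by simpa using hb.symm)]
    · intro h
      exact (h (SimpleFunc.mem_range_self s x)).elim
  simp only [h1]
  rw [integral_finsetSum]
  · refine Finset.sum_congr rfl fun a _ => ?_
    rw [integral_indicator_const _ (s.measurableSet_fiber a), smul_eq_mul]
  · intro a _
    exact (integrable_const _).indicator (s.measurableSet_fiber a)

/-- The double integral of a continuous bounded positive semidefinite kernel is nonnegative. -/
theorem psd_integral (μ : Measure V) [IsFiniteMeasure μ] (k : V → V → ℝ)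
    (hk : Continuous (Function.uncurry k)) (C : ℝ) (hC : ∀ x y, |k x y| ≤ C)
    (hpsd : ∀ (s : Finset V) (v : V → ℝ), 0 ≤ ∑ i ∈ s, ∑ j ∈ s, v i * v j * k i j) :
    0 ≤ ∫ x, ∫ y, k x y ∂μ ∂μ := by
  have hid : StronglyMeasurable (id : V → V) := stronglyMeasurable_id
  let s : ℕ → SimpleFunc V V := hid.approx
  have hs : ∀ x, Tendsto (fun n => s n x) atTop (𝓝 x) := fun x => hid.tendsto_approx x
  have h1 : ∀ n, 0 ≤ ∫ x, ∫ y, k (s n x) (s n y) ∂μ ∂μ := by
    intro n
    have h2 : ∀ x, ∫ y, k (s n x) (s n y) ∂μ =
        ∑ b ∈ (s n).range, μ.real (s n ⁻¹' {b}) * k (s n x) b := fun x =>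
      integral_comp_simple μ (s n) (k (s n x))
    simp only [h2]
    have h3 := integral_comp_simple μ (s n)
      (fun a => ∑ b ∈ (s n).range, μ.real (s n ⁻¹' {b}) * k a b)
    rw [h3]
    refine (hpsd (s n).range fun a => μ.real (s n ⁻¹' {a})).trans_eq ?_
    refine Finset.sum_congr rfl fun a _ => ?_
    rw [Finset.mul_sum]
    refine Finset.sum_congr rfl fun b _ => by ring
  have h2 : ∀ x, Tendsto (fun n => ∫ y, k (s n x) (s n y) ∂μ) atTop (𝓝 (∫ y, k x y ∂μ)) := by
    intro x
    apply tendsto_integral_of_dominated_convergence (fun _ => C)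
    · intro n
      have : Measurable fun y => k (s n x) (s n y) :=
        (hk.measurable.of_uncurry_left (x := s n x)).comp (s n).measurable
      exact this.aestronglyMeasurable
    · exact integrable_const _
    · intro n
      exact Eventually.of_forall fun y => hC _ _
    · refine Eventually.of_forall fun y => ?_
      exact (hk.tendsto (x, y)).comp ((hs x).prodMk_nhds (hs y))
  have h3 : Tendsto (fun n => ∫ x, ∫ y, k (s n x) (s n y) ∂μ ∂μ) atTop
      (𝓝 (∫ x, ∫ y, k x y ∂μ ∂μ)) := by
    apply tendsto_integral_of_dominated_convergence (fun _ => C * μ.real univ)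
    · intro n
      have h4 : ∀ x, ∫ y, k (s n x) (s n y) ∂μ =
        ∑ b ∈ (s n).range, μ.real (s n ⁻¹' {b}) * k (s n x) b := fun x =>
        integral_comp_simple μ (s n) (k (s n x))
      simp only [h4]
      have : Measurable fun x => ∑ b ∈ (s n).range, μ.real (s n ⁻¹' {b}) * k (s n x) b := by
        refine Finset.measurable_sum _ fun b _ => ?_
        apply Measurable.const_mul
        exact (hk.measurable.of_uncurry_right (y := b)).comp (s n).measurable
      exact this.aestronglyMeasurable
    · exact integrable_const _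
    · intro n
      refine Eventually.of_forall fun x => ?_
      refine (norm_integral_le_of_norm_le_const (C := C) (Eventually.of_forall fun y => hC _ _)).trans ?_
      exact le_of_eq (by ring)
    · exact Eventually.of_forall h2
  exact ge_of_tendsto' h3 h1

end Pool.Agent.Lib.MP_e62a5f_gt
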